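import Pool.Agent.Lib.MP_820675_pr.Defs

open Filter Topology Asymptotics Finset

namespace Pool.Agent.MP820675

variable {d n : ℕ}

/-- Real matrices indexed by urns and colours. -/
abbrev V (d : ℕ) : Type := Fin d → Fin d → ℝ

/-- The matrix of a state. -/
def emb (M : State d n) : V d := fun i a => (M.count i a : ℝ)

/-- The increment of a move. -/
def Del (σ : Equiv.Perm (Fin d)) (c : Fin d → Fin d) : V d :=
  fun i a => -(if c i = a then 1 else 0) + (if c (σ.symm i) = a then 1 else 0)

/-- The jump operator on functions of real matrices. -/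
noncomputable def Kop (μ : Equiv.Perm (Fin d) → ℝ) (n : ℕ) (G : V d → ℝ) (M : V d) : ℝ :=
  ∑ σ, μ σ * ∑ c : Fin d → Fin d, (∏ i, M i (c i) / n) * G (M + Del σ c)

lemma emb_injective : Function.Injective (emb : State d n → V d) := by
  intro M M' h
  apply Subtype.ext
  funext i a
  apply Fin.ext
  have := congrFun (congrFun h i) a
  simpa [emb, State.count] using this

lemma isMove_iff (σ : Equiv.Perm (Fin d)) (c : Fin d → Fin d) (M M' : State d n) :
    IsMove σ c M M' ↔ emb M' = emb M + Del σ c := by
  unfold IsMove
  constructor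
  · intro h
    funext i a
    have h1 := h i a
    have h2 : ((M'.count i a : ℤ) : ℝ) =
        ((M.count i a - (if c i = a then 1 else 0) + (if c (σ.symm i) = a then 1 else 0) : ℤ) : ℝ)
        := by rw [h1]
    simp only [emb, Del, Pi.add_apply]
    push_cast at h2
    rw [h2]
    ring
  · intro h i a
    have h1 := congrFun (congrFun h i) a
    simp only [emb, Del, Pi.add_apply] at h1
    have h2 : ((M'.count i a : ℤ) : ℝ) =
        ((M.count i a - (if c i = a then 1 else 0) + (if c (σ.symm i) = a then 1 else 0) : ℤ) : ℝ)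
        := by
      push_cast
      rw [h1]
      ring
    exact_mod_cast h2

lemma count_row (M : State d n) (i : Fin d) : ∑ a, M.count i a = n := M.2.1 i

lemma count_col (M : State d n) (a : Fin d) : ∑ i, M.count i a = n := M.2.2 a

lemma emb_row (M : State d n) (i : Fin d) : ∑ a, emb M i a = n := by
  have := count_row M i
  unfold emb
  exact_mod_cast this

lemma emb_col (M : State d n) (a : Fin d) : ∑ i, emb M i a = n := by
  have := count_col M a
  unfold emb
  exact_mod_cast this

lemma emb_nonneg (M : State d n) (i a : Fin d) : 0 ≤ emb M i a := Nat.cast_nonneg _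

lemma exists_move (σ : Equiv.Perm (Fin d)) (c : Fin d → Fin d) (M : State d n)
    (h : ∀ i, 1 ≤ M.count i (c i)) : ∃ M' : State d n, emb M' = emb M + Del σ c := by
  classical
  -- the new counts
  let f : Fin d → Fin d → ℕ := fun i a =>
    (M.count i a - (if c i = a then 1 else 0)) + (if c (σ.symm i) = a then 1 else 0)
  have hf : ∀ i a, (f i a : ℤ) =
      M.count i a - (if c i = a then 1 else 0) + (if c (σ.symm i) = a then 1 else 0) := by
    intro i a
    simp only [f]
    have : (if c i = a then 1 else 0) ≤ M.count i a := by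
      split_ifs with h1
      · rw [← h1]; exact h i
      · exact Nat.zero_le _
    rw [Nat.cast_add, Nat.cast_sub this]
    push_cast
    rfl
  have hrow : ∀ i, ∑ a, f i a = n := by
    intro i
    have : (∑ a, (f i a : ℤ)) = n := by
      simp_rw [hf]
      rw [Finset.sum_add_distrib, Finset.sum_sub_distrib]
      have := count_row M i
      have h2 : (∑ a, (M.count i a : ℤ)) = n := by exact_mod_cast this
      rw [h2]
      simp
    exact_mod_cast this
  have hcol : ∀ a, ∑ i, f i a = n := by
    intro a
    have : (∑ i, (f i a : ℤ)) = n := by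
      simp_rw [hf]
      rw [Finset.sum_add_distrib, Finset.sum_sub_distrib]
      have := count_col M a
      have h2 : (∑ i, (M.count i a : ℤ)) = n := by exact_mod_cast this
      rw [h2]
      have h3 : ∑ i, (if c (σ.symm i) = a then (1 : ℤ) else 0) =
          ∑ i, (if c i = a then (1 : ℤ) else 0) :=
        Equiv.sum_comp σ.symm (fun i => if c i = a then (1 : ℤ) else 0)
      rw [h3]
      ring
    exact_mod_cast this
  have hle : ∀ i a, f i a < n + 1 := by
    intro i a
    have : f i a ≤ ∑ b, f i b := Finset.single_le_sum (fun _ _ => Nat.zero_le _) (Finset.mem_univ a)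
    rw [hrow i] at this
    omega
  refine ⟨⟨fun i a => ⟨f i a, hle i a⟩, hrow, hcol⟩, ?_⟩
  funext i a
  have h1 := hf i a
  simp only [emb, State.count, Del, Pi.add_apply]
  have h2 : ((f i a : ℤ) : ℝ) =
      ((M.count i a - (if c i = a then 1 else 0) + (if c (σ.symm i) = a then 1 else 0) : ℤ) : ℝ) := by
    rw [h1]
  push_cast at h2
  rw [h2]
  simp only [State.count]
  ring

/-- The jump matrix acts as the jump operator. -/
lemma jump_apply (μ : Equiv.Perm (Fin d) → ℝ) (G : V d → ℝ) (m : State d n) :
    ∑ y, jump μ n m y * G (emb y) = Kop μ n G (emb m) := by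
  classical
  unfold jump Kop
  simp_rw [Finset.sum_mul]
  rw [Finset.sum_comm]
  apply Finset.sum_congr rfl
  intro σ _
  simp_rw [mul_assoc, ← Finset.mul_sum]
  congr 1
  simp_rw [Finset.sum_mul]
  rw [Finset.sum_comm]
  apply Finset.sum_congr rfl
  intro c _
  simp_rw [mul_assoc, ← Finset.mul_sum]
  by_cases hall : ∀ i, 1 ≤ m.count i (c i)
  · obtain ⟨y, hy⟩ := exists_move σ c m hall
    have h1 : ∑ x : State d n, (if IsMove σ c m x then (1 : ℝ) else 0) * G (emb x) =
        G (emb m + Del σ c) := by
      rw [Finset.sum_eq_single y]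
      · rw [if_pos ((isMove_iff σ c m y).mpr hy), one_mul, hy]
      · intro z _ hz
        rw [if_neg, zero_mul]
        intro hm
        apply hz
        apply emb_injective
        rw [(isMove_iff σ c m z).mp hm, hy]
      · intro h
        exact absurd (Finset.mem_univ _) h
    rw [h1]
    rfl
  · push Not at hall
    obtain ⟨i, hi⟩ := hall
    have h0 : m.count i (c i) = 0 := by omega
    have hp : ∏ i, ((m.count i (c i) : ℕ) : ℝ) / n = 0 := by
      apply Finset.prod_eq_zero (Finset.mem_univ i)
      rw [h0]
      simp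
    have hp' : ∏ i, emb m i (c i) / (n : ℝ) = 0 := hp
    rw [hp, hp']
    simp

lemma jump_pow_apply (μ : Equiv.Perm (Fin d) → ℝ) (G : V d → ℝ) (k : ℕ) (m : State d n) :
    ∑ y, (jump μ n ^ k) m y * G (emb y) = ((Kop μ n)^[k] G) (emb m) := by
  induction k generalizing m with
  | zero =>
    simp [Matrix.one_apply]
  | succ k ih =>
    rw [Function.iterate_succ_apply', ← jump_apply]
    simp_rw [← ih, pow_succ', Matrix.mul_apply, Finset.sum_mul]
    rw [Finset.sum_comm]
    apply Finset.sum_congr rfl
    intro y _
    rw [Finset.mul_sum]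
    apply Finset.sum_congr rfl
    intro z _
    ring

/-- Product formula. -/
lemma sum_prod_eq (w : Fin d → Fin d → ℝ) (hw : ∀ i, ∑ a, w i a = 1) :
    ∑ c : Fin d → Fin d, ∏ i, w i (c i) = 1 := by
  classical
  have h := Finset.prod_univ_sum (fun _ : Fin d => (Finset.univ : Finset (Fin d))) w
  rw [Fintype.piFinset_univ] at h
  rw [← h]
  simp [hw]

lemma sum_prod_mul (w : Fin d → Fin d → ℝ) (hw : ∀ i, ∑ a, w i a = 1) (j : Fin d)
    (f : Fin d → ℝ) :
    ∑ c : Fin d → Fin d, (∏ i, w i (c i)) * f (c j) = ∑ a, w j a * f a := by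
  classical
  have h := Finset.prod_univ_sum (fun _ : Fin d => (Finset.univ : Finset (Fin d)))
    (fun i a => if i = j then w i a * f a else w i a)
  rw [Fintype.piFinset_univ] at h
  have h1 : ∀ c : Fin d → Fin d, ∏ i, (if i = j then w i (c i) * f (c i) else w i (c i)) =
      (∏ i, w i (c i)) * f (c j) := by
    intro c
    rw [← Finset.mul_prod_erase _ _ (Finset.mem_univ j),
      ← Finset.mul_prod_erase (s := Finset.univ) (f := fun i => w i (c i)) (Finset.mem_univ j)]
    rw [if_pos rfl]
    have : ∏ x ∈ Finset.univ.erase j, (if x = j then w x (c x) * f (c x) else w x (c x)) =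
        ∏ x ∈ Finset.univ.erase j, w x (c x) := by
      apply Finset.prod_congr rfl
      intro x hx
      rw [if_neg (Finset.ne_of_mem_erase hx)]
    rw [this]
    ring
  simp_rw [← h1]
  rw [← h]
  rw [← Finset.mul_prod_erase _ _ (Finset.mem_univ j)]
  have h2 : ∏ x ∈ Finset.univ.erase j, ∑ a, (if x = j then w x a * f a else w x a) = 1 := by
    apply Finset.prod_eq_one
    intro x hx
    rw [← hw x]
    apply Finset.sum_congr rfl
    intro a _
    rw [if_neg (Finset.ne_of_mem_erase hx)]
  rw [h2, mul_one]
  apply Finset.sum_congr rfl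
  intro a _
  rw [if_pos rfl]

end Pool.Agent.MP820675
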