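import Mathlib

open Filter Topology Asymptotics

namespace Pool.Agent.MP820675

variable {d n : ℕ}

/-- The states of the balanced chain with `d` urns, `d` colours and `n` balls of each colour:
the entry `M i c` is the number of balls of colour `c` in urn `i`; every urn holds exactly `n`
balls and there are exactly `n` balls of every colour. -/
def State (d n : ℕ) : Type :=
  {M : Fin d → Fin d → Fin (n + 1) //
    (∀ i, ∑ c, (M i c : ℕ) = n) ∧ (∀ c, ∑ i, (M i c : ℕ) = n)}

noncomputable instance : Fintype (State d n) := by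
  unfold State
  infer_instance

noncomputable instance : DecidableEq (State d n) := Classical.decEq _

/-- The number of balls of colour `c` in urn `i`. -/
def State.count (M : State d n) (i c : Fin d) : ℕ := (M.1 i c : ℕ)

/-- `M'` is the state reached from `M` when, for every urn `i`, the ball picked from urn `i` has
colour `c i` and is moved to urn `σ i`: urn `i` loses a ball of colour `c i` and gains the ball that
was picked from urn `σ⁻¹ i`. -/
def IsMove (σ : Equiv.Perm (Fin d)) (c : Fin d → Fin d) (M M' : State d n) : Prop :=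
  ∀ i a, (M'.count i a : ℤ) =
    M.count i a - (if c i = a then 1 else 0) + (if c (σ.symm i) = a then 1 else 0)

/-- `p` is a probability distribution on a finite type. -/
def IsDist {α : Type} [Fintype α] (p : α → ℝ) : Prop := (∀ x, 0 ≤ p x) ∧ ∑ x, p x = 1

/-- `U(i,j) = Pr[σ(i) = j]` for `σ ∼ μ`. -/
noncomputable def U (μ : Equiv.Perm (Fin d) → ℝ) : Matrix (Fin d) (Fin d) ℝ :=
  fun i j => ∑ σ, if σ i = j then μ σ else 0

/-- Irreducibility of a nonnegative matrix: every entry is positive in some power. -/
def IsIrred (A : Matrix (Fin d) (Fin d) ℝ) : Prop := ∀ i j, ∃ k : ℕ, 0 < (A ^ k) i j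

open Classical in
/-- The transition matrix of one ring of the clock: one ball is picked uniformly at random from
each urn (so the picked colours are `c` with probability `∏ i, M i (c i) / n`), `σ ∼ μ` is drawn
independently, and the ball picked from urn `i` is moved to urn `σ i`. -/
noncomputable def jump (μ : Equiv.Perm (Fin d) → ℝ) (n : ℕ) :
    Matrix (State d n) (State d n) ℝ := fun M M' =>
  ∑ σ, μ σ * ∑ c : Fin d → Fin d,
    (∏ i, (M.count i (c i) : ℝ) / n) * (if IsMove σ c M M' then 1 else 0)

/-- The transition probabilities of the continuous-time chain with jump rate `1`: the clock has rung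
a Poisson(`t`) number of times by time `t`. -/
noncomputable def heat (μ : Equiv.Perm (Fin d) → ℝ) (n : ℕ) (t : ℝ) (η y : State d n) : ℝ :=
  ∑' k : ℕ, Real.exp (-t) * t ^ k / (k.factorial : ℝ) * (jump μ n ^ k) η y

/-- `π` is a stationary distribution of the balanced chain. -/
def IsStationary (μ : Equiv.Perm (Fin d) → ℝ) (n : ℕ) (π : State d n → ℝ) : Prop :=
  IsDist π ∧ Matrix.vecMul π (jump μ n) = π

/-- `d_n(t)`: the worst-case total variation distance to `π` at time `t`. -/
noncomputable def worst (μ : Equiv.Perm (Fin d) → ℝ) (n : ℕ) (π : State d n → ℝ) (t : ℝ) : ℝ :=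
  ⨆ η : State d n, (1 / 2) * ∑ y, |heat μ n t η y - π y|

/-- The mixing time `t_mix(ε) = inf {t ≥ 0 : d_n(t) ≤ ε}`. -/
noncomputable def tmix (μ : Equiv.Perm (Fin d) → ℝ) (n : ℕ) (π : State d n → ℝ) (ε : ℝ) : ℝ :=
  sInf {t : ℝ | 0 ≤ t ∧ worst μ n π t ≤ ε}

/-- The balanced chains with parameters `(d, n, μ)` (with stationary laws `π n`) have cutoff with
window of size `O(w n)`: `w n = o(t_mix)`, and `d_n(t_mix ∓ α w_n)` tends to `1`, resp. `0`, in the
sense of the iterated limit `lim_{α → ∞} liminf_n`, resp. `lim_{α → ∞} limsup_n`. -/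
def HasCutoffWindow (μ : Equiv.Perm (Fin d) → ℝ) (π : ∀ n, State d n → ℝ) (w : ℕ → ℝ) : Prop :=
  (∀ n, 0 ≤ w n) ∧ (w =o[atTop] fun n => tmix μ n (π n) (1 / 4)) ∧
  Tendsto (fun α : ℝ => liminf (fun n : ℕ =>
    worst μ n (π n) (tmix μ n (π n) (1 / 4) - α * w n)) atTop) atTop (𝓝 1) ∧
  Tendsto (fun α : ℝ => limsup (fun n : ℕ =>
    worst μ n (π n) (tmix μ n (π n) (1 / 4) + α * w n)) atTop) atTop (𝓝 0)

end Pool.Agent.MP820675
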