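import Pool.Agent.Lib.MP_820675_pr.Main

open Filter Topology Asymptotics Finset

namespace Pool.Agent.MP820675

variable {d n : ℕ} {μ : Equiv.Perm (Fin d) → ℝ}

/-- Sanity check: the balanced chain has a stationary distribution for every `n ≥ 1`. -/
theorem exists_stationary (hμ : IsDist μ) (hn : 0 < n) :
    ∃ π : State d n → ℝ, IsStationary μ n π := by
  classical
  have hrow : ∀ η : State d n, ∑ y, jump μ n η y = 1 := by
    intro η
    have := jpow_row hμ hn 1 η
    simpa using this
  have hnn : ∀ η y : State d n, 0 ≤ jump μ n η y := by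
    intro η y
    have := jpow_nonneg (n := n) hμ 1 η y
    simpa using this
  have hdet : (jump μ n - 1 : Matrix (State d n) (State d n) ℝ).det = 0 := by
    rw [← Matrix.exists_mulVec_eq_zero_iff]
    refine ⟨fun _ => 1, ?_, ?_⟩
    · intro h
      have := congrFun h (diag d n)
      simp at this
    · rw [Matrix.sub_mulVec, Matrix.one_mulVec]
      funext η
      simp [Matrix.mulVec, dotProduct, hrow]
  rw [← Matrix.exists_vecMul_eq_zero_iff] at hdet
  obtain ⟨v, hv0, hv⟩ := hdet
  rw [Matrix.vecMul_sub, Matrix.vecMul_one, sub_eq_zero] at hv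
  have hle : ∀ y, |v y| ≤ ∑ x, |v x| * jump μ n x y := by
    intro y
    have h := congrFun hv y
    rw [Matrix.vecMul, dotProduct] at h
    rw [← h]
    refine (Finset.abs_sum_le_sum_abs _ _).trans (le_of_eq ?_)
    apply Finset.sum_congr rfl
    intro x _
    rw [abs_mul, abs_of_nonneg (hnn x y)]
  have hsum : ∑ y, |v y| = ∑ y, ∑ x, |v x| * jump μ n x y := by
    rw [Finset.sum_comm]
    apply Finset.sum_congr rfl
    intro x _
    rw [← Finset.mul_sum, hrow, mul_one]
  have heq : ∀ y, |v y| = ∑ x, |v x| * jump μ n x y := by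
    have := (Finset.sum_eq_sum_iff_of_le (fun y _ => hle y)).mp hsum
    exact fun y => this y (Finset.mem_univ y)
  have hpos : 0 < ∑ y, |v y| := by
    obtain ⟨y, hy⟩ := Function.ne_iff.mp hv0
    exact Finset.sum_pos' (fun i _ => abs_nonneg _) ⟨y, Finset.mem_univ y, abs_pos.mpr hy⟩
  refine ⟨fun y => |v y| / ∑ x, |v x|, ⟨fun y => by positivity, ?_⟩, ?_⟩
  · rw [← Finset.sum_div, div_self hpos.ne']
  · funext y
    rw [Matrix.vecMul, dotProduct]
    rw [heq y, Finset.sum_div]
    apply Finset.sum_congr rfl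
    intro x _
    ring

end Pool.Agent.MP820675
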