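import Pool.Agent.Lib.MP_820675_pr.Poisson

open Filter Topology Asymptotics Finset

namespace Pool.Agent.MP820675

variable {d n : ℕ} {μ : Equiv.Perm (Fin d) → ℝ}

/-! ### Deterministic part: decay of the mean -/

lemma Am_iter_sub (M N : V d) (k : ℕ) :
    (Am μ n)^[k] (M - N) = (Am μ n)^[k] M - (Am μ n)^[k] N := by
  induction k with
  | zero => rfl
  | succ k ih =>
    rw [Function.iterate_succ_apply', Function.iterate_succ_apply', Function.iterate_succ_apply',
      ih, Am_sub]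

lemma Am_iter_eqm (hμ : IsDist μ) (k : ℕ) : (Am μ n)^[k] (eqm d n) = eqm d n := by
  induction k with
  | zero => rfl
  | succ k ih => rw [Function.iterate_succ_apply', ih, Am_eqm hμ]

/-- Squared distance of the mean after `k` jumps from equilibrium. -/
noncomputable def md (μ : Equiv.Perm (Fin d) → ℝ) (n : ℕ) (η : State d n) (k : ℕ) : ℝ :=
  nrm2 ((Am μ n)^[k] (emb η - eqm d n))

lemma zeroCol_iter (hμ : IsDist μ) {v : V d} (hv : ZeroCol v) (k : ℕ) :
    ZeroCol ((Am μ n)^[k] v) := by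
  induction k with
  | zero => exact hv
  | succ k ih =>
    rw [Function.iterate_succ_apply']
    exact zeroCol_Am hμ ih

lemma md_succ_le (hμ : IsDist μ) {γ : ℝ} (hγ1 : 0 < γ)
    (hγ : ∀ f : Fin d → ℝ, ∑ i, f i = 0 → γ * ∑ i, (f i) ^ 2 ≤ (1 / 2) * dir μ f)
    (hd : 0 < d) (hn : 2 ≤ n) (η : State d n) (k : ℕ) :
    md μ n η (k + 1) ≤ (1 - γ / n) * md μ n η k := by
  unfold md
  rw [Function.iterate_succ_apply']
  exact nrm2_Am_le hμ hγ1 hγ hn (zeroCol_iter hμ (zeroCol_emb_eqm hd η) k)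

lemma md_succ_ge (hμ : IsDist μ) {γ : ℝ} (hγ1 : 0 < γ)
    (hγ : ∀ f : Fin d → ℝ, ∑ i, f i = 0 → γ * ∑ i, (f i) ^ 2 ≤ (1 / 2) * dir μ f)
    (hn : 2 ≤ n) (η : State d n) (k : ℕ) :
    (1 - 4 / (n : ℝ)) * md μ n η k ≤ md μ n η (k + 1) := by
  unfold md
  rw [Function.iterate_succ_apply']
  exact nrm2_Am_ge hμ hγ1 hγ hn _

lemma md_nonneg (η : State d n) (k : ℕ) : 0 ≤ md μ n η k := nrm2_nonneg _

lemma md_pow_le (hμ : IsDist μ) {γ : ℝ} (hγ1 : 0 < γ) (hγ2 : γ ≤ 1)
    (hγ : ∀ f : Fin d → ℝ, ∑ i, f i = 0 → γ * ∑ i, (f i) ^ 2 ≤ (1 / 2) * dir μ f)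
    (hd : 0 < d) (hn : 2 ≤ n) (η : State d n) (k : ℕ) :
    md μ n η k ≤ (1 - γ / n) ^ k * md μ n η 0 := by
  have hn' : (2 : ℝ) ≤ n := by exact_mod_cast hn
  have h0 : 0 ≤ 1 - γ / n := by
    rw [sub_nonneg, div_le_one (by linarith)]
    linarith
  induction k with
  | zero => simp
  | succ k ih =>
    refine (md_succ_le hμ hγ1 hγ hd hn η k).trans ?_
    rw [pow_succ, mul_comm ((1 - γ / n) ^ k), mul_assoc]
    exact mul_le_mul_of_nonneg_left ih h0

lemma md_anti (hμ : IsDist μ) {γ : ℝ} (hγ1 : 0 < γ)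
    (hγ : ∀ f : Fin d → ℝ, ∑ i, f i = 0 → γ * ∑ i, (f i) ^ 2 ≤ (1 / 2) * dir μ f)
    (hd : 0 < d) (hn : 2 ≤ n) (η : State d n) : Antitone (md μ n η) := by
  apply antitone_nat_of_succ_le
  intro k
  have hn' : (2 : ℝ) ≤ n := by exact_mod_cast hn
  have h1 := md_succ_le hμ hγ1 hγ hd hn η k
  have h2 := md_nonneg (μ := μ) η k
  have h3 : 0 ≤ γ / n := by positivity
  nlinarith

lemma md_ge (hμ : IsDist μ) {γ : ℝ} (hγ1 : 0 < γ)
    (hγ : ∀ f : Fin d → ℝ, ∑ i, f i = 0 → γ * ∑ i, (f i) ^ 2 ≤ (1 / 2) * dir μ f)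
    (hn : 8 ≤ n) (η : State d n) (k l : ℕ) :
    Real.exp (-(8 * l / n)) * md μ n η k ≤ md μ n η (k + l) := by
  have hn' : (8 : ℝ) ≤ n := by exact_mod_cast hn
  have hx : Real.exp (-(8 / n)) ≤ 1 - 4 / (n : ℝ) := by
    set x : ℝ := 4 / n with hx
    have hx0 : 0 ≤ x := by positivity
    have hx1 : x ≤ 1 / 2 := by
      rw [hx, div_le_iff₀ (by linarith)]
      linarith
    have e : -(8 / (n : ℝ)) = -x - 2 * (-x) ^ 2 - (x - 2 * x ^ 2) := by rw [hx]; ring
    have h1 : Real.exp (-x - 2 * (-x) ^ 2) ≤ 1 + (-x) :=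
      exp_le_one_add (by rw [abs_neg, abs_of_nonneg hx0]; exact hx1)
    have h2 : Real.exp (-(x - 2 * x ^ 2)) ≤ 1 := by
      rw [Real.exp_le_one_iff]
      nlinarith
    rw [e, sub_eq_add_neg, Real.exp_add]
    calc Real.exp (-x - 2 * (-x) ^ 2) * Real.exp (-(x - 2 * x ^ 2))
        ≤ (1 + (-x)) * 1 := mul_le_mul h1 h2 (Real.exp_pos _).le (by linarith)
      _ = 1 - x := by ring
  induction l with
  | zero => simp
  | succ l ih =>
    have h1 := md_succ_ge hμ hγ1 hγ (by omega) η (k + l)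
    have e : Real.exp (-(8 * ((l + 1 : ℕ) : ℝ) / n)) =
        Real.exp (-(8 / n)) * Real.exp (-(8 * l / n)) := by
      rw [← Real.exp_add]
      congr 1
      push_cast
      ring
    rw [e, ← add_assoc]
    have h2 := md_nonneg (μ := μ) η (k + l)
    calc Real.exp (-(8 / n)) * Real.exp (-(8 * l / n)) * md μ n η k
        = Real.exp (-(8 / n)) * (Real.exp (-(8 * l / n)) * md μ n η k) := by ring
      _ ≤ Real.exp (-(8 / n)) * md μ n η (k + l) :=
          mul_le_mul_of_nonneg_left ih (Real.exp_pos _).le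
      _ ≤ (1 - 4 / (n : ℝ)) * md μ n η (k + l) := mul_le_mul_of_nonneg_right hx h2
      _ ≤ _ := h1

/-- The state in which urn `i` holds all balls of colour `i`. -/
def diag (d n : ℕ) : State d n :=
  ⟨fun i a => if i = a then ⟨n, Nat.lt_succ_self n⟩ else ⟨0, Nat.succ_pos n⟩, by
    constructor
    · intro i
      rw [Finset.sum_eq_single i]
      · simp
      · intro b _ hb
        simp [Ne.symm hb]
      · simp
    · intro a
      rw [Finset.sum_eq_single a]
      · simp
      · intro b _ hb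
        simp [hb]
      · simp⟩

lemma emb_diag (i a : Fin d) : emb (diag d n) i a = if i = a then (n : ℝ) else 0 := by
  unfold emb State.count diag
  simp only
  split_ifs <;> simp

lemma md_diag (hd : 2 ≤ d) : (n : ℝ) ^ 2 / 4 ≤ md μ n (diag d n) 0 := by
  have hd' : (2 : ℝ) ≤ d := by exact_mod_cast hd
  unfold md
  simp only [Function.iterate_zero, id]
  set z : Fin d := ⟨0, by omega⟩
  have h1 := entry_sq_le (emb (diag d n) - eqm d n) z z
  refine le_trans ?_ h1
  simp only [Pi.sub_apply, emb_diag, if_true, eqm]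
  have h2 : (n : ℝ) / 2 ≤ n - n / d := by
    have : (n : ℝ) / d ≤ n / 2 := div_le_div_of_nonneg_left (Nat.cast_nonneg n) (by norm_num) hd'
    linarith
  have h3 : (0 : ℝ) ≤ n / 2 := by positivity
  nlinarith

lemma md_zero_le (hd : 0 < d) (η : State d n) : md μ n η 0 ≤ d ^ 2 * n ^ 2 := by
  have hd' : (1 : ℝ) ≤ d := by exact_mod_cast hd
  unfold md nrm2
  simp only [Function.iterate_zero, id]
  have h1 : ∀ i a : Fin d, ((emb η - eqm d n) i a) ^ 2 ≤ (n : ℝ) ^ 2 := by
    intro i a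
    simp only [Pi.sub_apply, eqm]
    have h2 := emb_nonneg η i a
    have h3 : emb η i a ≤ n := by
      rw [← emb_row η i]
      exact Finset.single_le_sum (fun b _ => emb_nonneg η i b) (Finset.mem_univ a)
    have h4 : (n : ℝ) / d ≤ n := div_le_self (Nat.cast_nonneg n) hd'
    have h5 : (0 : ℝ) ≤ n / d := by positivity
    apply sq_le_sq'
    · linarith
    · linarith
  calc ∑ i, ∑ a, ((emb η - eqm d n) i a) ^ 2 ≤ ∑ _i : Fin d, ∑ _a : Fin d, (n : ℝ) ^ 2 :=
        Finset.sum_le_sum fun i _ => Finset.sum_le_sum fun a _ => h1 i a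
    _ = d ^ 2 * n ^ 2 := by
        simp only [Finset.sum_const, Finset.card_univ, Fintype.card_fin, nsmul_eq_mul]
        ring

/-! ### Concentration of the state around the mean -/

lemma conc (hμ : IsDist μ) {γ : ℝ} (hγ1 : 0 < γ) (hγ2 : γ ≤ 1)
    (hγ : ∀ f : Fin d → ℝ, ∑ i, f i = 0 → γ * ∑ i, (f i) ^ 2 ≤ (1 / 2) * dir μ f)
    (hn : 2 ≤ n) (η : State d n) (k : ℕ) :
    ∑ y, (jump μ n ^ k) η y *
      nrm2 (emb y - eqm d n - (Am μ n)^[k] (emb η - eqm d n)) ≤ 4 * d * n / γ := by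
  have h := variance_bound hμ hγ1 hγ2 hγ hn η k
  have e : ∀ y : State d n, emb y - eqm d n - (Am μ n)^[k] (emb η - eqm d n) =
      emb y - (Am μ n)^[k] (emb η) := by
    intro y
    rw [Am_iter_sub, Am_iter_eqm hμ]
    abel
  simp_rw [e]
  exact h

/-- Overlap with the stationary law when the mean is close to equilibrium. -/
lemma overlap_stat (hμ : IsDist μ) (hd : 0 < d) (hU : IsIrred (U μ)) {γ : ℝ} (hγ1 : 0 < γ)
    (hγ2 : γ ≤ 1)
    (hγ : ∀ f : Fin d → ℝ, ∑ i, f i = 0 → γ * ∑ i, (f i) ^ 2 ≤ (1 / 2) * dir μ f)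
    (K : ℝ) (hK : 0 < K) :
    ∃ c : ℝ, 0 < c ∧ ∃ n₀ : ℕ, ∀ n ≥ n₀, ∀ (π : State d n → ℝ), IsStationary μ n π →
      ∀ (η : State d n) (k : ℕ), md μ n η k ≤ K * n →
      ∀ g : State d n → ℝ, (∀ y, 0 ≤ g y) → (∀ y, g y ≤ 1) →
      c ≤ ∑ y, (jump μ n ^ (k + JJ d n)) η y * g y + ∑ y, π y * (1 - g y) := by
  classical
  set CV : ℝ := 4 * d / γ with hCV
  have hd' : (0 : ℝ) < d := by exact_mod_cast hd
  have hCV0 : 0 < CV := by positivity
  obtain ⟨c, hc, n₀, h⟩ := overlap hμ hd hU (4 * CV + 2 * K) (by positivity)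
  refine ⟨c / 4, by positivity, n₀ + 2, fun n hn π hπ η k hk g hg0 hg1 => ?_⟩
  have hn2 : 2 ≤ n := by omega
  have hn' : (0 : ℝ) < n := by
    have : 0 < n := by omega
    exact_mod_cast this
  -- the window
  set w : State d n → ℝ := fun y => if nrm2 (emb y - eqm d n) ≤ (4 * CV + 2 * K) * n
    then 1 else 0 with hw
  have hw0 : ∀ y, 0 ≤ w y := fun y => by rw [hw]; dsimp only; split_ifs <;> norm_num
  have hw1 : ∀ y, w y ≤ 1 := fun y => by rw [hw]; dsimp only; split_ifs <;> norm_num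
  -- probability of the window under the chain
  have hα : 1 / 2 ≤ ∑ y, (jump μ n ^ k) η y * w y := by
    have h1 := conc hμ hγ1 hγ2 hγ hn2 η k
    have h2 := markov (p := fun y => (jump μ n ^ k) η y) (fun y => jpow_nonneg hμ k η y)
      (F := fun y => nrm2 (emb y - eqm d n - (Am μ n)^[k] (emb η - eqm d n)))
      (fun y => nrm2_nonneg _) (a := 2 * CV * n) (by positivity) h1
      (f := fun y => 1 - w y) (fun y => by linarith [hw0 y]) (fun y hy => by
        have h3 := nrm2_add_le (emb y - eqm d n - (Am μ n)^[k] (emb η - eqm d n))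
          ((Am μ n)^[k] (emb η - eqm d n))
        rw [sub_add_cancel] at h3
        have h4 : nrm2 ((Am μ n)^[k] (emb η - eqm d n)) ≤ K * n := hk
        have h5 : nrm2 (emb y - eqm d n) ≤ (4 * CV + 2 * K) * n := by
          calc nrm2 (emb y - eqm d n) ≤ _ := h3
            _ ≤ 2 * (2 * CV * n) + 2 * (K * n) := by linarith
            _ = _ := by ring
        rw [hw]
        simp [h5])
    have h3 : 4 * d * n / γ / (2 * CV * n) = 1 / 2 := by
      rw [hCV]
      field_simp
    rw [h3] at h2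
    simp_rw [mul_sub, mul_one, Finset.sum_sub_distrib, jpow_row hμ (by omega : 0 < n)] at h2
    linarith
  have hβ : 1 / 2 ≤ ∑ y, π y * w y := by
    have h1 := stationary_bound hμ hγ1 hγ hd hn2 hπ
    have h2 := markov (p := π) hπ.1.1 (F := fun y => nrm2 (emb y - eqm d n))
      (fun y => nrm2_nonneg _) (a := 2 * CV * n) (by positivity) h1
      (f := fun y => 1 - w y) (fun y => by linarith [hw0 y]) (fun y hy => by
        have h5 : nrm2 (emb y - eqm d n) ≤ (4 * CV + 2 * K) * n := by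
          calc nrm2 (emb y - eqm d n) ≤ 2 * CV * n := hy
            _ ≤ _ := by
              have : 0 ≤ 2 * CV * n + 2 * K * n := by positivity
              linarith
        rw [hw]
        simp [h5])
    have h3 : 4 * d * n / γ / (2 * CV * n) = 1 / 2 := by
      rw [hCV]
      field_simp
    rw [h3] at h2
    simp_rw [mul_sub, mul_one, Finset.sum_sub_distrib, hπ.1.2] at h2
    linarith
  -- the two partial functionals
  set G₁ : State d n → ℝ := fun m => ∑ y, (jump μ n ^ JJ d n) m y * g y with hG₁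
  set G₂ : State d n → ℝ := fun m => ∑ y, (jump μ n ^ JJ d n) m y * (1 - g y) with hG₂
  have hG₁0 : ∀ m, 0 ≤ G₁ m := fun m => Finset.sum_nonneg fun y _ =>
    mul_nonneg (jpow_nonneg hμ _ m y) (hg0 y)
  have hG₂0 : ∀ m, 0 ≤ G₂ m := fun m => Finset.sum_nonneg fun y _ =>
    mul_nonneg (jpow_nonneg hμ _ m y) (by linarith [hg1 y])
  have e1 : ∑ y, (jump μ n ^ (k + JJ d n)) η y * g y = ∑ m, (jump μ n ^ k) η m * G₁ m := by
    rw [hG₁]
    simp_rw [pow_add, Matrix.mul_apply, Finset.sum_mul, Finset.mul_sum]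
    rw [Finset.sum_comm]
    apply Finset.sum_congr rfl
    intro m _
    apply Finset.sum_congr rfl
    intro y _
    ring
  have hst : ∀ j : ℕ, Matrix.vecMul π (jump μ n ^ j) = π := by
    intro j
    induction j with
    | zero => simp
    | succ j ih => rw [pow_succ, ← Matrix.vecMul_vecMul, ih, hπ.2]
  have e2 : ∑ y, π y * (1 - g y) = ∑ m, π m * G₂ m := by
    have h1 : ∀ y, ∑ m, π m * (jump μ n ^ JJ d n) m y = π y := by
      intro y
      have h1 := congrFun (hst (JJ d n)) y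
      simpa only [Matrix.vecMul, dotProduct] using h1
    calc ∑ y, π y * (1 - g y) = ∑ y, (∑ m, π m * (jump μ n ^ JJ d n) m y) * (1 - g y) := by
          apply Finset.sum_congr rfl
          intro y _
          rw [h1 y]
      _ = ∑ m, π m * G₂ m := by
          rw [hG₂]
          simp_rw [Finset.sum_mul, Finset.mul_sum]
          rw [Finset.sum_comm]
          apply Finset.sum_congr rfl
          intro m _
          apply Finset.sum_congr rfl
          intro y _
          ring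
  clear_value G₁ G₂
  rw [e1, e2]
  -- double sum
  have hp1 : ∑ m, (jump μ n ^ k) η m = 1 := jpow_row hμ (by omega) k η
  have e3 : ∑ m, (jump μ n ^ k) η m * G₁ m + ∑ m, π m * G₂ m =
      ∑ m, ∑ m', ((jump μ n ^ k) η m * π m') * (G₁ m + G₂ m') := by
    have h1 : ∑ m, ∑ m', ((jump μ n ^ k) η m * π m') * (G₁ m + G₂ m') =
        ∑ m, ((jump μ n ^ k) η m * G₁ m * ∑ m', π m' +
          (jump μ n ^ k) η m * ∑ m', π m' * G₂ m') := by
      apply Finset.sum_congr rfl
      intro m _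
      rw [Finset.mul_sum, Finset.mul_sum, ← Finset.sum_add_distrib]
      apply Finset.sum_congr rfl
      intro m' _
      ring
    rw [h1, hπ.1.2, Finset.sum_add_distrib, ← Finset.sum_mul (s := Finset.univ)
      (f := fun m => (jump μ n ^ k) η m), hp1]
    simp
  rw [e3]
  calc c / 4 ≤ (∑ m, (jump μ n ^ k) η m * w m) * (∑ m', π m' * w m') * c := by
        have h1 : 1 / 4 ≤ (∑ m, (jump μ n ^ k) η m * w m) * (∑ m', π m' * w m') := by
          nlinarith
        nlinarith
    _ = ∑ m, ∑ m', ((jump μ n ^ k) η m * π m') * (w m * w m' * c) := by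
        rw [Finset.sum_mul_sum, Finset.sum_mul]
        apply Finset.sum_congr rfl
        intro m _
        rw [Finset.sum_mul]
        apply Finset.sum_congr rfl
        intro m' _
        ring
    _ ≤ _ := by
        apply Finset.sum_le_sum
        intro m _
        apply Finset.sum_le_sum
        intro m' _
        apply mul_le_mul_of_nonneg_left _ (mul_nonneg (jpow_nonneg hμ k η m) (hπ.1.1 m'))
        rw [hw]
        dsimp only
        split_ifs with h1 h2
        · have h3 := h n (by omega) m m' h1 h2 g hg0 hg1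
          rw [one_mul, one_mul, hG₁, hG₂]
          exact h3
        · have := hG₁0 m
          have := hG₂0 m'
          linarith
        · have := hG₁0 m
          have := hG₂0 m'
          linarith
        · have := hG₁0 m
          have := hG₂0 m'
          linarith

end Pool.Agent.MP820675
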