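import Pool.Agent.Lib.MP_820675_pr.Walk

open Filter Topology Asymptotics Finset

namespace Pool.Agent.MP820675

variable {d n : ℕ} {μ : Equiv.Perm (Fin d) → ℝ}

/-- Diffusive overlap in the direction `v`. -/
def TT (μ : Equiv.Perm (Fin d) → ℝ) (v : V d) : Prop :=
  ∀ K : ℝ, 0 < K → ∃ c : ℝ, 0 < c ∧ ∃ J₀ : ℕ, ∀ J ≥ J₀, ∀ k : ℤ, (k : ℝ) ^ 2 ≤ K * J →
    Trans μ J (k • v) c

/-- Pieces. -/
lemma trans_pieces (hμ : IsDist μ) (hd : 0 < d) {v : V d} {J₀ κ : ℕ} {c : ℝ} (hc : 0 < c)
    (h : ∀ k : ℤ, |k| ≤ κ → Trans μ J₀ (k • v) c) (L : ℕ) :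
    ∀ k : ℤ, |k| ≤ L * κ → Trans μ (L * J₀) (k • v) (c ^ L) := by
  induction L with
  | zero =>
    intro k hk
    have : k = 0 := by
      simp only [Nat.cast_zero, zero_mul] at hk
      exact abs_nonpos_iff.mp hk
    subst this
    simpa using trans_zero hμ hd 0
  | succ L ih =>
    intro k hk
    -- clamp
    set k₀ : ℤ := max (-κ) (min κ k) with hk₀
    have h1 : |k₀| ≤ κ := by
      rw [abs_le]
      constructor
      · exact le_max_left _ _
      · apply max_le
        · omega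
        · exact min_le_left _ _
    have h2 : |k - k₀| ≤ L * κ := by
      rw [abs_le] at hk
      push_cast at hk
      have h3 : (0 : ℤ) ≤ (L : ℤ) * κ := by positivity
      rw [hk₀, abs_le]
      constructor
      · rcases le_total (-(κ : ℤ)) (min (κ : ℤ) k) with h4 | h4
        · rw [max_eq_right h4]
          rcases le_total (κ : ℤ) k with h5 | h5
          · rw [min_eq_left h5]; linarith
          · rw [min_eq_right h5]; linarith
        · rw [max_eq_left h4]
          nlinarith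
      · rcases le_total (-(κ : ℤ)) (min (κ : ℤ) k) with h4 | h4
        · rw [max_eq_right h4]
          rcases le_total (κ : ℤ) k with h5 | h5
          · rw [min_eq_left h5]; nlinarith
          · rw [min_eq_right h5]; linarith
        · rw [max_eq_left h4]
          have h6 : min (κ : ℤ) k ≤ -κ := h4
          rcases le_total (κ : ℤ) k with h5 | h5
          · rw [min_eq_left h5] at h6
            have : (κ : ℤ) = 0 := by omega
            rw [this] at hk ⊢
            nlinarith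
          · rw [min_eq_right h5] at h6
            linarith
    have h3 := trans_comp hμ (by positivity) (ih _ h2) (h k₀ h1)
    have e1 : (k - k₀) • v + k₀ • v = k • v := by
      rw [← add_smul]
      congr 1
      ring
    have e2 : L * J₀ + J₀ = (L + 1) * J₀ := by ring
    rw [e1, e2, ← pow_succ] at h3
    exact h3

lemma TT_zero (hμ : IsDist μ) (hd : 0 < d) : TT μ 0 := by
  intro K _
  refine ⟨1, one_pos, 0, fun J _ k _ => ?_⟩
  rw [smul_zero]
  exact trans_zero hμ hd J

lemma TT_neg {v : V d} (h : TT μ v) : TT μ (-v) := by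
  intro K hK
  obtain ⟨c, hc, J₀, hJ⟩ := h K hK
  refine ⟨c, hc, J₀, fun J hJJ k hk => ?_⟩
  have h1 := hJ J hJJ (-k) (by push_cast; rw [neg_sq]; exact hk)
  rwa [neg_smul, ← smul_neg] at h1

lemma TT_add (hμ : IsDist μ) {v w : V d} (hv : TT μ v) (hw : TT μ w) : TT μ (v + w) := by
  intro K hK
  obtain ⟨c₁, hc₁, J₁, h₁⟩ := hv (3 * K) (by linarith)
  obtain ⟨c₂, hc₂, J₂, h₂⟩ := hw (3 * K) (by linarith)
  refine ⟨c₁ * c₂, mul_pos hc₁ hc₂, 2 * J₁ + 2 * J₂ + 2, fun J hJ k hk => ?_⟩
  have ha : J₁ ≤ J / 2 := by omega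
  have hb : J₂ ≤ J - J / 2 := by omega
  have hJ1 : (J : ℝ) ≤ 3 * (J / 2 : ℕ) := by
    have : J ≤ 3 * (J / 2) := by omega
    exact_mod_cast this
  have hJ2 : (J : ℝ) ≤ 3 * (J - J / 2 : ℕ) := by
    have : J ≤ 3 * (J - J / 2) := by omega
    exact_mod_cast this
  have t1 := h₁ (J / 2) ha k (by nlinarith)
  have t2 := h₂ (J - J / 2) hb k (by nlinarith)
  have t3 := trans_comp hμ hc₁.le t1 t2
  have e : J / 2 + (J - J / 2) = J := by omega
  rw [e, ← smul_add] at t3
  exact t3

lemma TT_elem (hμ : IsDist μ) (hd : 0 < d) (σ₀ : Equiv.Perm (Fin d)) (i₀ a b : Fin d)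
    (hab : a ≠ b) (hσ : 0 < μ σ₀) : TT μ (dv σ₀ i₀ a b) := by
  intro K hK
  set p := pp σ₀ i₀ a b μ with hp
  have hp0 : 0 < p := pp_pos σ₀ i₀ a b hμ hd hσ
  have hp1 : p ≤ 1 := pp_le_one σ₀ i₀ a b hμ hd
  -- number of pieces
  obtain ⟨L, hL⟩ := exists_nat_ge (32 * K / p + 1)
  have hL1 : (1 : ℝ) ≤ L := by
    have : 0 ≤ 32 * K / p := by positivity
    linarith
  have hLpos : 0 < L := by exact_mod_cast (by linarith : (0 : ℝ) < L)
  have hLp : 32 * K ≤ p * L := by
    have : 32 * K / p ≤ L := by linarith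
    rw [div_le_iff₀ hp0] at this
    linarith
  obtain ⟨J₀, hJ₀⟩ := exists_nat_ge (2 * L * 17 / p)
  refine ⟨(1 / 4) ^ L, by positivity, J₀, fun J hJ k hk => ?_⟩
  have hJr : 2 * L * 17 ≤ p * J := by
    have h1 : (J₀ : ℝ) ≤ J := by exact_mod_cast hJ
    have h2 : 2 * L * 17 / p ≤ J := hJ₀.trans h1
    rw [div_le_iff₀ hp0] at h2
    linarith
  set κ : ℕ := k.natAbs / L + 1 with hκ
  have hkκ : |k| ≤ (L : ℤ) * κ := by
    have h1 : k.natAbs < L * κ := by
      rw [hκ, mul_add, mul_one]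
      have h2 := Nat.div_add_mod k.natAbs L
      have h3 := Nat.mod_lt k.natAbs hLpos
      omega
    rw [Int.abs_eq_natAbs]
    exact_mod_cast h1.le
  have hκle : (κ : ℝ) ≤ |(k : ℝ)| / L + 1 := by
    rw [hκ]
    push_cast
    have h1 : ((k.natAbs / L : ℕ) : ℝ) ≤ (k.natAbs : ℝ) / L := Nat.cast_div_le
    have h2 : (k.natAbs : ℝ) = |(k : ℝ)| := by
      rw [Nat.cast_natAbs]
      push_cast
      rfl
    rw [h2] at h1
    linarith
  have hJdiv : (J : ℝ) / L - 1 ≤ (J / L : ℕ) := by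
    have h1 := Nat.div_add_mod J L
    have h2 := Nat.mod_lt J hLpos
    have h3 : (J : ℝ) < L * ((J / L : ℕ) + 1) := by
      have : J < L * (J / L + 1) := by
        rw [mul_add, mul_one]
        omega
      exact_mod_cast this
    rw [sub_le_iff_le_add, div_le_iff₀ (by linarith)]
    nlinarith
  have hpiece : ∀ k₀ : ℤ, |k₀| ≤ (κ : ℤ) → Trans μ (J / L) (k₀ • dv σ₀ i₀ a b) (1 / 4) := by
    intro k₀ hk₀
    apply trans_elem hμ hd σ₀ i₀ a b hab hσ
    rw [← hp]
    have h1 : |(k₀ : ℝ)| ≤ κ := by exact_mod_cast hk₀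
    have h2 : (k₀ : ℝ) ^ 2 ≤ (|(k : ℝ)| / L + 1) ^ 2 := by
      rw [← sq_abs]
      have h3 : |(k₀ : ℝ)| ≤ |(k : ℝ)| / L + 1 := h1.trans hκle
      exact pow_le_pow_left₀ (abs_nonneg _) h3 2
    have h3 : (|(k : ℝ)| / L + 1) ^ 2 ≤ 2 * ((k : ℝ) ^ 2 / L ^ 2) + 2 := by
      have : (|(k : ℝ)| / L) ^ 2 = (k : ℝ) ^ 2 / L ^ 2 := by rw [div_pow, sq_abs]
      rw [← this]
      nlinarith [sq_nonneg (|(k : ℝ)| / L - 1)]
    have h4 : (k : ℝ) ^ 2 / L ^ 2 ≤ K * J / L ^ 2 := by
      apply div_le_div_of_nonneg_right hk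
      positivity
    have h5 : 16 * (K * J / L ^ 2) ≤ p * J / (2 * L) := by
      rw [← mul_div_assoc, div_le_div_iff₀ (by positivity) (by positivity)]
      have hJn : (0 : ℝ) ≤ J := Nat.cast_nonneg J
      have h6 : 32 * K * (J * L) ≤ p * L * (J * L) :=
        mul_le_mul_of_nonneg_right hLp (by positivity)
      nlinarith
    have h6 : 17 ≤ p * J / (2 * L) := by
      rw [le_div_iff₀ (by positivity)]
      linarith
    have h7 : p * (J / L - 1) ≤ p * (J / L : ℕ) := mul_le_mul_of_nonneg_left hJdiv hp0.le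
    have h8 : p * (J / L : ℝ) = p * J / (2 * L) + p * J / (2 * L) := by
      field_simp
      ring
    nlinarith
  have h1 := trans_pieces hμ hd (by norm_num) hpiece L k hkκ
  exact trans_mono hμ hd (Nat.mul_div_le J L) (by positivity) h1

/-- The difference direction `(E_i - E_j) ⊗ (e_b - e_a)`. -/
def ww (i j a b : Fin d) : V d := fun x y =>
  ((if i = x then 1 else 0) - (if j = x then 1 else 0)) *
    ((if b = y then 1 else 0) - (if a = y then 1 else 0))

lemma ww_self (i a b : Fin d) : ww i i a b = 0 := by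
  funext x y
  simp [ww]

lemma ww_color (i j a : Fin d) : ww i j a a = 0 := by
  funext x y
  simp [ww]

lemma ww_add (i j l a b : Fin d) : ww i j a b + ww j l a b = ww i l a b := by
  funext x y
  simp only [ww, Pi.add_apply]
  ring

lemma TT_ww (hμ : IsDist μ) (hd : 0 < d) (hU : IsIrred (U μ)) (i j a b : Fin d) :
    TT μ (ww j i a b) := by
  rcases eq_or_ne a b with hab | hab
  · subst hab
    rw [ww_color]
    exact TT_zero hμ hd
  obtain ⟨k, hk⟩ := hU i j
  induction k generalizing j with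
  | zero =>
    have : i = j := by
      by_contra hne
      rw [pow_zero, Matrix.one_apply_ne hne] at hk
      exact lt_irrefl _ hk
    subst this
    rw [ww_self]
    exact TT_zero hμ hd
  | succ k ih =>
    rw [pow_succ, Matrix.mul_apply] at hk
    obtain ⟨l, _, hl⟩ := Finset.exists_lt_of_sum_lt (f := fun _ : Fin d => (0 : ℝ))
      (g := fun l => (U μ ^ k) i l * U μ l j) (s := Finset.univ) (by simpa using hk)
    have hUl := U_nonneg hμ l j
    have hpos : 0 < U μ l j := by
      rcases hUl.lt_or_eq with h | h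
      · exact h
      · rw [← h, mul_zero] at hl
        exact absurd hl (lt_irrefl _)
    have hpos' : 0 < (U μ ^ k) i l := by
      by_contra hcon
      rw [not_lt] at hcon
      have := mul_nonpos_of_nonpos_of_nonneg hcon hUl
      linarith
    have h1 := ih l hpos'
    -- a permutation moving `l` to `j`
    unfold U at hpos
    obtain ⟨σ, _, hσ⟩ := Finset.exists_lt_of_sum_lt
      (f := fun _ : Equiv.Perm (Fin d) => (0 : ℝ))
      (g := fun σ => if σ l = j then μ σ else 0) (s := Finset.univ) (by simpa using hpos)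
    have hσj : σ l = j := by
      by_contra hne
      simp only [hne, if_false] at hσ
      exact lt_irrefl _ hσ
    rw [if_pos hσj] at hσ
    have h2 : TT μ (dv σ l a b) := TT_elem hμ hd σ l a b hab hσ
    have h3 : dv σ l a b = ww j l a b := by
      funext x y
      simp only [dv, ww, hσj]
    rw [h3] at h2
    have h4 := TT_add hμ h2 h1
    rwa [ww_add] at h4

/-- Families of directions. -/
lemma TT_family (hμ : IsDist μ) (hd : 0 < d) {ι : Type} [DecidableEq ι] (v : ι → V d)
    (hv : ∀ s, TT μ (v s)) (S : Finset ι) :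
    ∀ K : ℝ, 0 < K → ∃ c : ℝ, 0 < c ∧ ∃ J₀ : ℕ, ∀ J ≥ J₀, ∀ k : ι → ℤ,
      (∀ s, (k s : ℝ) ^ 2 ≤ K * J) → Trans μ J (∑ s ∈ S, k s • v s) c := by
  induction S using Finset.induction_on with
  | empty =>
    intro K _
    refine ⟨1, one_pos, 0, fun J _ k _ => ?_⟩
    rw [Finset.sum_empty]
    exact trans_zero hμ hd J
  | insert s S hs ih =>
    intro K hK
    obtain ⟨c₁, hc₁, J₁, h₁⟩ := hv s (3 * K) (by linarith)
    obtain ⟨c₂, hc₂, J₂, h₂⟩ := ih (3 * K) (by linarith)
    refine ⟨c₁ * c₂, mul_pos hc₁ hc₂, 2 * J₁ + 2 * J₂ + 2, fun J hJ k hk => ?_⟩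
    have ha : J₁ ≤ J / 2 := by omega
    have hb : J₂ ≤ J - J / 2 := by omega
    have hJ1 : (J : ℝ) ≤ 3 * (J / 2 : ℕ) := by
      have : J ≤ 3 * (J / 2) := by omega
      exact_mod_cast this
    have hJ2 : (J : ℝ) ≤ 3 * (J - J / 2 : ℕ) := by
      have : J ≤ 3 * (J - J / 2) := by omega
      exact_mod_cast this
    have t1 := h₁ (J / 2) ha (k s) (by have := hk s; nlinarith)
    have t2 := h₂ (J - J / 2) hb k (fun s' => by have := hk s'; nlinarith)
    have t3 := trans_comp hμ hc₁.le t1 t2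
    have e : J / 2 + (J - J / 2) = J := by omega
    rw [e] at t3
    rw [Finset.sum_insert hs]
    exact t3

/-- Decomposition of an integer matrix with vanishing row and column sums. -/
lemma decomp (i₀ a₀ : Fin d) (k : Fin d × Fin d → ℤ) (hrow : ∀ i, ∑ a, k (i, a) = 0)
    (hcol : ∀ a, ∑ i, k (i, a) = 0) :
    ∑ s ∈ (Finset.univ : Finset (Fin d × Fin d)), k s • ww s.1 i₀ a₀ s.2 =
      fun i a => (k (i, a) : ℝ) := by
  funext x y
  rw [Finset.sum_apply, Finset.sum_apply]
  simp only [Pi.smul_apply, ww, zsmul_eq_mul]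
  rw [Fintype.sum_prod_type]
  have hrow' : ∀ i, ∑ a, (k (i, a) : ℝ) = 0 := fun i => by exact_mod_cast hrow i
  have hcol' : ∀ a, ∑ i, (k (i, a) : ℝ) = 0 := fun a => by exact_mod_cast hcol a
  have e : ∀ i a : Fin d, (k (i, a) : ℝ) * (((if i = x then (1 : ℝ) else 0) -
      (if i₀ = x then 1 else 0)) * ((if a = y then 1 else 0) - (if a₀ = y then 1 else 0))) =
      ((if i = x then (1 : ℝ) else 0) - (if i₀ = x then 1 else 0)) *
        ((if a = y then (k (i, a) : ℝ) else 0) - (if a₀ = y then 1 else 0) * k (i, a)) := by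
    intro i a
    split_ifs <;> ring
  simp_rw [e, ← Finset.mul_sum, Finset.sum_sub_distrib, ← Finset.mul_sum, hrow', mul_zero,
    sub_zero, Finset.sum_ite_eq', Finset.mem_univ, if_true, sub_mul, Finset.sum_sub_distrib,
    ← Finset.mul_sum, hcol', mul_zero, sub_zero, ite_mul, one_mul, zero_mul,
    Finset.sum_ite_eq', Finset.mem_univ, if_true]

/-- Overlap of the reference walk for two states at diffusive distance. -/
lemma walk_overlap (hμ : IsDist μ) (hd : 0 < d) (hU : IsIrred (U μ)) (K : ℝ) (hK : 0 < K) :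
    ∃ c : ℝ, 0 < c ∧ ∃ J₀ : ℕ, ∀ J ≥ J₀, ∀ (n : ℕ) (m m' : State d n),
      nrm2 (emb m' - emb m) ≤ K * J → Trans μ J (emb m' - emb m) c := by
  set z : Fin d := ⟨0, hd⟩
  obtain ⟨c, hc, J₀, h⟩ := TT_family hμ hd (fun s : Fin d × Fin d => ww s.1 z z s.2)
    (fun s => TT_ww hμ hd hU z s.1 z s.2) Finset.univ K hK
  refine ⟨c, hc, J₀, fun J hJ n m m' hm => ?_⟩
  have h1 := h J hJ (fun s => (m'.count s.1 s.2 : ℤ) - m.count s.1 s.2) (fun s => by
    have h2 := entry_sq_le (emb m' - emb m) s.1 s.2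
    simp only [Pi.sub_apply, emb] at h2
    push_cast
    linarith)
  rw [decomp z z] at h1
  · have e : (fun i a => (((m'.count i a : ℤ) - m.count i a : ℤ) : ℝ)) = emb m' - emb m := by
      funext i a
      simp [emb]
    rw [e] at h1
    exact h1
  · intro i
    have h2 := count_row m' i
    have h3 := count_row m i
    have h4 : (∑ a, (m'.count i a : ℤ)) = n := by exact_mod_cast h2
    have h5 : (∑ a, (m.count i a : ℤ)) = n := by exact_mod_cast h3
    rw [Finset.sum_sub_distrib, h4, h5, sub_self]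
  · intro a
    have h2 := count_col m' a
    have h3 := count_col m a
    have h4 : (∑ i, (m'.count i a : ℤ)) = n := by exact_mod_cast h2
    have h5 : (∑ i, (m.count i a : ℤ)) = n := by exact_mod_cast h3
    rw [Finset.sum_sub_distrib, h4, h5, sub_self]

end Pool.Agent.MP820675
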