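import Pool.Agent.Lib.MP_820675_pr.Key

open Filter Topology Asymptotics Finset

namespace Pool.Agent.MP820675

variable {d n : ℕ} {μ : Equiv.Perm (Fin d) → ℝ}

lemma tv_le_worst (π : State d n → ℝ) (t : ℝ) (η : State d n) :
    (1 / 2) * ∑ y, |heat μ n t η y - π y| ≤ worst μ n π t := by
  unfold worst
  exact le_ciSup (f := fun η : State d n => (1 / 2) * ∑ y, |heat μ n t η y - π y|)
    (Set.finite_range _).bddAbove η

lemma worst_nonneg (π : State d n → ℝ) (t : ℝ) : 0 ≤ worst μ n π t := by
  refine le_trans ?_ (tv_le_worst π t (diag d n))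
  exact mul_nonneg (by norm_num) (Finset.sum_nonneg fun _ _ => abs_nonneg _)

lemma worst_le (π : State d n → ℝ) (t : ℝ) {B : ℝ}
    (h : ∀ η, (1 / 2) * ∑ y, |heat μ n t η y - π y| ≤ B) : worst μ n π t ≤ B := by
  have : Nonempty (State d n) := ⟨diag d n⟩
  exact ciSup_le h

lemma worst_le_one (hμ : IsDist μ) (hn : 0 < n) {π : State d n → ℝ} (hπ : IsDist π) {t : ℝ}
    (ht : 0 ≤ t) : worst μ n π t ≤ 1 := by
  apply worst_le
  intro η
  have h := tv_le_of_overlap (p := fun y => heat μ n t η y) (q := π) (heat_row hμ hn ht η) hπ.2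
    (c := 0) (fun g hg0 hg1 => by
      apply add_nonneg
      · exact Finset.sum_nonneg fun y _ => mul_nonneg (heat_nonneg hμ ht η y) (hg0 y)
      · exact Finset.sum_nonneg fun y _ => mul_nonneg (hπ.1 y) (by linarith [hg1 y]))
  simpa using h

/-- If the chain is close to equilibrium at time `t`, the Poisson number of jumps is mostly such
that the mean is close to equilibrium. -/
lemma bad_mass (hμ : IsDist μ) (hd : 0 < d) {γ : ℝ} (hγ1 : 0 < γ) (hγ2 : γ ≤ 1)
    (hγ : ∀ f : Fin d → ℝ, ∑ i, f i = 0 → γ * ∑ i, (f i) ^ 2 ≤ (1 / 2) * dir μ f)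
    (hn : 2 ≤ n) {π : State d n → ℝ} (hπ : IsStationary μ n π) {t : ℝ} (ht : 0 ≤ t)
    (hw : worst μ n π t ≤ 1 / 8) (η : State d n) {b : ℕ → ℝ} (hb0 : ∀ k, 0 ≤ b k)
    (hb1 : ∀ k, b k ≤ 1) (hb : ∀ k, md μ n η k ≤ 128 * d / γ * n → b k = 0) :
    ∑' k, pw t k * b k ≤ 1 / 3 := by
  classical
  have hn0 : 0 < n := by omega
  have hn' : (0 : ℝ) < n := by exact_mod_cast hn0
  have hd' : (0 : ℝ) < d := by exact_mod_cast hd
  set CV : ℝ := 4 * d / γ with hCV
  have hCV0 : 0 < CV := by positivity
  set w : State d n → ℝ := fun y => if nrm2 (emb y - eqm d n) ≤ 8 * CV * n then 1 else 0 with hwdef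
  have hw0 : ∀ y, 0 ≤ w y := fun y => by rw [hwdef]; dsimp only; split_ifs <;> norm_num
  have hw1 : ∀ y, w y ≤ 1 := fun y => by rw [hwdef]; dsimp only; split_ifs <;> norm_num
  have h8 : CV * n / (8 * CV * n) = 1 / 8 := by field_simp
  have hCVn : 4 * d * n / γ = CV * n := by rw [hCV]; ring
  -- stationary mass of the window
  have hβ : 7 / 8 ≤ ∑ y, π y * w y := by
    have h1 := stationary_bound hμ hγ1 hγ hd hn hπ
    rw [hCVn] at h1
    have h2 := markov (p := π) hπ.1.1 (F := fun y => nrm2 (emb y - eqm d n))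
      (fun y => nrm2_nonneg _) (a := 8 * CV * n) (by positivity) h1
      (f := fun y => 1 - w y) (fun y => by linarith [hw0 y]) (fun y hy => by
        rw [hwdef]
        simp [hy])
    rw [h8] at h2
    simp_rw [mul_sub, mul_one, Finset.sum_sub_distrib, hπ.1.2] at h2
    linarith
  -- mass of the window at time `t`
  have hα : 3 / 4 ≤ ∑ y, heat μ n t η y * w y := by
    have h1 := tv_event (p := fun y => heat μ n t η y) (q := π) (heat_row hμ hn0 ht η) hπ.1.2
      w hw0 hw1
    have h2 := (tv_le_worst (μ := μ) π t η).trans hw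
    linarith
  rw [heat_sum hμ hn0 ht] at hα
  -- bad numbers of jumps
  have hk : ∀ k, ∑ y, (jump μ n ^ k) η y * w y ≤ 1 - (7 / 8) * b k := by
    intro k
    by_cases hgood : md μ n η k ≤ 128 * d / γ * n
    · rw [hb k hgood, mul_zero, sub_zero, ← jpow_row hμ hn0 k η]
      apply Finset.sum_le_sum
      intro y _
      have := jpow_nonneg (n := n) hμ k η y
      nlinarith [hw1 y]
    · have h1 := conc hμ hγ1 hγ2 hγ hn η k
      rw [hCVn] at h1
      have h2 := markov (p := fun y => (jump μ n ^ k) η y) (fun y => jpow_nonneg hμ k η y)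
        (F := fun y => nrm2 (emb y - eqm d n - (Am μ n)^[k] (emb η - eqm d n)))
        (fun y => nrm2_nonneg _) (a := 8 * CV * n) (by positivity) h1
        (f := w) hw1 (fun y hy => by
          rw [hwdef]
          dsimp only
          rw [if_neg]
          intro hcon
          apply hgood
          have h3 := nrm2_sub_le (emb y - eqm d n)
            (emb y - eqm d n - (Am μ n)^[k] (emb η - eqm d n))
          rw [sub_sub_cancel] at h3
          unfold md
          calc nrm2 ((Am μ n)^[k] (emb η - eqm d n)) ≤ _ := h3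
            _ ≤ 2 * (8 * CV * n) + 2 * (8 * CV * n) := by linarith
            _ = _ := by rw [hCV]; ring)
      rw [h8] at h2
      have := hb1 k
      linarith
  have hsb : Summable (fun k => pw t k * b k) :=
    summable_pw_mul ht (C := 1) (fun k => by rw [abs_of_nonneg (hb0 k)]; exact hb1 k)
  have h1 : ∑' k, pw t k * ∑ y, (jump μ n ^ k) η y * w y ≤
      ∑' k, (pw t k - (7 / 8) * (pw t k * b k)) := by
    apply Summable.tsum_le_tsum
    · intro k
      have := mul_le_mul_of_nonneg_left (hk k) (pw_nonneg ht k)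
      linarith
    · apply summable_pw_mul ht (C := 1)
      intro k
      rw [abs_of_nonneg]
      · rw [← jpow_row hμ hn0 k η]
        apply Finset.sum_le_sum
        intro y _
        have := jpow_nonneg (n := n) hμ k η y
        nlinarith [hw1 y]
      · exact Finset.sum_nonneg fun y _ => mul_nonneg (jpow_nonneg hμ k η y) (hw0 y)
    · exact (hasSum_pw t).summable.sub (hsb.mul_left _)
  rw [Summable.tsum_sub (hasSum_pw t).summable (hsb.mul_left _), tsum_mul_left,
    (hasSum_pw t).tsum_eq] at h1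
  linarith

/-- **Key proposition.** Closeness at a later time (within `n`) forbids near-singularity. -/
lemma key_prop (hd : 2 ≤ d) (hμ : IsDist μ) (hU : IsIrred (U μ)) :
    ∃ ε : ℝ, 0 < ε ∧ ∃ n₀ : ℕ, ∀ n ≥ n₀, ∀ π : State d n → ℝ, IsStationary μ n π →
      ∀ s s' : ℝ, 0 ≤ s → s ≤ s' → s' ≤ s + n → worst μ n π s' ≤ ε →
        worst μ n π s ≤ 1 - ε := by
  classical
  obtain ⟨γ, hγ1, hγ2, hγ⟩ := exists_gap hμ hU
  have hd0 : 0 < d := by omega
  have hd' : (0 : ℝ) < d := by exact_mod_cast hd0
  set K₂ : ℝ := 128 * d / γ with hK₂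
  have hK₂0 : 0 < K₂ := by positivity
  set K₃ : ℝ := Real.exp 24 * K₂ with hK₃
  have hK₃0 : 0 < K₃ := by positivity
  obtain ⟨c, hc, n₁, hov⟩ := overlap_stat hμ hd0 hU hγ1 hγ2 hγ K₃ hK₃0
  obtain ⟨n₂, hn₂⟩ := exists_nat_gt (4 * Real.exp 80 * K₂)
  obtain ⟨n₃, hn₃⟩ := exists_nat_ge (8192 * d ^ 2 / (γ ^ 2 * K₂))
  refine ⟨min (1 / 8) (c / 2), by positivity, n₁ + n₂ + n₃ + 64,
    fun n hn π hπ s s' hs hss' hs'n hw => ?_⟩
  have hn64 : 64 ≤ n := by omega
  have hn64' : (64 : ℝ) ≤ n := by exact_mod_cast hn64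
  have hn' : (0 : ℝ) < n := by linarith
  have hw8 : worst μ n π s' ≤ 1 / 8 := hw.trans (min_le_left _ _)
  have hs' : 0 ≤ s' := hs.trans hss'
  set j₁ : ℕ := n ^ 2 / 32 with hj₁
  have hj₁le : (j₁ : ℝ) ≤ n ^ 2 / 32 := by
    rw [hj₁]
    have := Nat.cast_div_le (m := n ^ 2) (n := 32) (α := ℝ)
    push_cast at this
    exact this
  have hj₁ge : (n : ℝ) ^ 2 / 64 ≤ j₁ := by
    have h1 := Nat.div_add_mod (n ^ 2) 32
    have h2 := Nat.mod_lt (n ^ 2) (show 32 > 0 by norm_num)
    have h3 : n ^ 2 ≤ 32 * (n ^ 2 / 32) + 32 := by omega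
    have h4 : (n : ℝ) ^ 2 ≤ 32 * j₁ + 32 := by
      rw [hj₁]
      exact_mod_cast h3
    nlinarith
  -- at time `j₁` the mean is close to equilibrium
  have hfar : ∀ η : State d n, md μ n η j₁ ≤ K₂ * n := by
    intro η
    have h1 := md_pow_le hμ hγ1 hγ2 hγ hd0 (by omega : 2 ≤ n) η j₁
    have h2 := md_zero_le (μ := μ) hd0 η
    have h3 : (1 - γ / n) ^ j₁ ≤ Real.exp (-(γ * n / 64)) := by
      have h4 : 0 ≤ 1 - γ / n := by
        rw [sub_nonneg, div_le_one hn']
        linarith
      have h5 : 1 - γ / n ≤ Real.exp (-(γ / n)) := by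
        have := Real.add_one_le_exp (-(γ / n))
        linarith
      calc (1 - γ / n) ^ j₁ ≤ (Real.exp (-(γ / n))) ^ j₁ := pow_le_pow_left₀ h4 h5 j₁
        _ = Real.exp (j₁ * (-(γ / n))) := by rw [← Real.exp_nat_mul]
        _ ≤ _ := by
          apply Real.exp_le_exp.mpr
          have h6 : γ / n * (n ^ 2 / 64) ≤ γ / n * j₁ :=
            mul_le_mul_of_nonneg_left hj₁ge (by positivity)
          have h7 : γ / n * ((n : ℝ) ^ 2 / 64) = γ * n / 64 := by
            field_simp
          rw [h7] at h6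
          linarith
    have h4 : Real.exp (-(γ * n / 64)) ≤ 8192 / (γ ^ 2 * n ^ 2) := by
      rw [Real.exp_neg]
      have h5 : γ ^ 2 * n ^ 2 / 8192 ≤ Real.exp (γ * n / 64) := by
        have h6 := Real.quadratic_le_exp_of_nonneg (x := γ * n / 64) (by positivity)
        have h7 : 0 ≤ γ * n / 64 := by positivity
        nlinarith
      have h6 : (8192 : ℝ) / (γ ^ 2 * n ^ 2) = (γ ^ 2 * n ^ 2 / 8192)⁻¹ := by
        rw [inv_div]
      rw [h6]
      exact inv_anti₀ (by positivity) h5
    calc md μ n η j₁ ≤ (1 - γ / n) ^ j₁ * md μ n η 0 := h1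
      _ ≤ 8192 / (γ ^ 2 * n ^ 2) * (d ^ 2 * n ^ 2) :=
          mul_le_mul (h3.trans h4) h2 (md_nonneg _ _) (by positivity)
      _ = 8192 * d ^ 2 / γ ^ 2 := by field_simp
      _ ≤ K₂ * n := by
          have h5 : 8192 * d ^ 2 / (γ ^ 2 * K₂) ≤ n := by
            refine hn₃.trans ?_
            exact_mod_cast (by omega : n₃ ≤ n)
          rw [div_le_iff₀ (by positivity)] at h5
          rw [div_le_iff₀ (by positivity)]
          linarith
  -- threshold index
  have hex : ∀ η : State d n, ∃ j : ℕ, md μ n η j ≤ K₂ * n := fun η => ⟨j₁, hfar η⟩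
  have hanti : ∀ η : State d n, Antitone (md μ n η) := fun η =>
    md_anti hμ hγ1 hγ hd0 (by omega) η
  -- the threshold index cannot be much larger than `s'`
  have hthr : ∀ η : State d n, ((Nat.find (hex η) : ℕ) : ℝ) ≤ s' + n / 2 := by
    intro η
    set j₀ := Nat.find (hex η) with hj₀
    have hj₀1 : j₀ ≤ j₁ := Nat.find_min' (hex η) (hfar η)
    have hgood : ∀ k, j₀ ≤ k → md μ n η k ≤ K₂ * n := fun k hk =>
      (hanti η hk).trans (Nat.find_spec (hex η))
    by_contra hcon
    push Not at hcon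
    have hb := bad_mass hμ hd0 hγ1 hγ2 hγ (by omega : 2 ≤ n) hπ hs' hw8 η
      (b := fun k => if k < j₀ then 1 else 0) (fun k => by split_ifs <;> norm_num)
      (fun k => by split_ifs <;> norm_num)
      (fun k hk => by
        rw [if_neg]
        intro hlt
        exact Nat.find_min (hex η) hlt hk)
    have hch := pw_cheb hs' (f := fun k => if k < j₀ then 0 else 1)
      (fun k => by split_ifs <;> norm_num)
      (fun k => by split_ifs <;> norm_num) (a := n ^ 2 / 4) (by positivity)
      (fun k hk => by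
        have hk' : j₀ ≤ k := by
          by_contra h
          push Not at h
          rw [if_pos h] at hk
          exact hk rfl
        have h1 : (j₀ : ℝ) ≤ k := by exact_mod_cast hk'
        have h2 : (n : ℝ) / 2 ≤ k - s' := by linarith
        nlinarith)
    have hsum : ∑' k, pw s' k * (if k < j₀ then (1 : ℝ) else 0) +
        ∑' k, pw s' k * (if k < j₀ then (0 : ℝ) else 1) = 1 := by
      rw [← Summable.tsum_add]
      · refine Eq.trans ?_ (hasSum_pw s').tsum_eq
        congr 1
        funext k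
        split_ifs <;> ring
      · exact summable_pw_mul hs' (C := 1) (fun k => by split_ifs <;> norm_num)
      · exact summable_pw_mul hs' (C := 1) (fun k => by split_ifs <;> norm_num)
    have h1 : s' / (n ^ 2 / 4) ≤ 1 / 8 := by
      rw [div_le_iff₀ (by positivity)]
      have h2 : (j₀ : ℝ) ≤ j₁ := by exact_mod_cast hj₀1
      linarith
    linarith
  -- `s` is at least `8 n`
  have hs8 : 8 * (n : ℝ) ≤ s := by
    have h1 : 10 * n ≤ Nat.find (hex (diag d n)) := by
      rw [Nat.le_find_iff]
      intro k hk hcon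
      have h2 := md_ge hμ hγ1 hγ (by omega : 8 ≤ n) (diag d n) 0 k
      rw [zero_add] at h2
      have h3 := md_diag (μ := μ) (n := n) hd
      have h4 : Real.exp (-80) ≤ Real.exp (-(8 * (k : ℝ) / n)) := by
        apply Real.exp_le_exp.mpr
        have h5 : (k : ℝ) ≤ 10 * n := by exact_mod_cast hk.le
        have h6 : 8 * (k : ℝ) / n ≤ 80 := by
          rw [div_le_iff₀ hn']
          linarith
        linarith
      have h5 : Real.exp (-80) * (n ^ 2 / 4) ≤ K₂ * n := by
        calc Real.exp (-80) * (n ^ 2 / 4) ≤ Real.exp (-(8 * (k : ℝ) / n)) * md μ n (diag d n) 0 :=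
              mul_le_mul h4 h3 (by positivity) (Real.exp_pos _).le
          _ ≤ _ := h2.trans hcon
      have h6 : 4 * Real.exp 80 * K₂ < n := by
        refine hn₂.trans_le ?_
        exact_mod_cast (by omega : n₂ ≤ n)
      have h7 : Real.exp (-80) * Real.exp 80 = 1 := by
        rw [← Real.exp_add]
        norm_num
      have h8 : (n : ℝ) ^ 2 / 4 ≤ Real.exp 80 * (K₂ * n) := by
        calc (n : ℝ) ^ 2 / 4 = (Real.exp (-80) * Real.exp 80) * (n ^ 2 / 4) := by rw [h7, one_mul]
          _ = Real.exp 80 * (Real.exp (-80) * (n ^ 2 / 4)) := by ring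
          _ ≤ _ := mul_le_mul_of_nonneg_left h5 (Real.exp_pos _).le
      nlinarith
    have h2 := hthr (diag d n)
    have h3 : (10 : ℝ) * n ≤ (Nat.find (hex (diag d n)) : ℕ) := by exact_mod_cast h1
    linarith
  have hJJ : JJ d n ≤ n := Nat.div_le_self _ _
  -- the overlap for every initial state
  apply le_trans (worst_le (B := 1 - c / 2) π s fun η => ?_)
  · have := min_le_right (1 / 8 : ℝ) (c / 2)
    linarith
  apply tv_le_of_overlap (p := fun y => heat μ n s η y) (q := π) (heat_row hμ (by omega) hs η)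
    hπ.1.2
  intro g hg0 hg1
  set j₀ := Nat.find (hex η) with hj₀
  have hj₀1 : j₀ ≤ j₁ := Nat.find_min' (hex η) (hfar η)
  have hthr' : (j₀ : ℝ) ≤ s' + n / 2 := hthr η
  set f : ℕ → ℝ := fun k => if JJ d n ≤ k ∧ md μ n η (k - JJ d n) ≤ K₃ * n then 0 else 1 with hf
  have hf0 : ∀ k, 0 ≤ f k := fun k => by rw [hf]; dsimp only; split_ifs <;> norm_num
  have hf1 : ∀ k, f k ≤ 1 := fun k => by rw [hf]; dsimp only; split_ifs <;> norm_num
  have hbadk : ∀ k, f k ≠ 0 → (k < n ∨ k + 2 * n < j₀) := by
    intro k hk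
    by_contra hcon
    push Not at hcon
    obtain ⟨h1, h2⟩ := hcon
    apply hk
    rw [hf]
    dsimp only
    rw [if_pos]
    refine ⟨by omega, ?_⟩
    have h3 := md_ge hμ hγ1 hγ (by omega : 8 ≤ n) η (k - JJ d n) (3 * n)
    have h4 : md μ n η (k - JJ d n + 3 * n) ≤ K₂ * n :=
      (hanti η (by omega : j₀ ≤ k - JJ d n + 3 * n)).trans (Nat.find_spec (hex η))
    have h5 : (8 : ℝ) * ((3 * n : ℕ) : ℝ) / n = 24 := by
      push_cast
      field_simp
      norm_num
    rw [h5] at h3
    have h6 : Real.exp 24 * Real.exp (-24) = 1 := by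
      rw [← Real.exp_add]
      norm_num
    calc md μ n η (k - JJ d n) = Real.exp 24 * (Real.exp (-24) * md μ n η (k - JJ d n)) := by
          rw [← mul_assoc, h6, one_mul]
      _ ≤ Real.exp 24 * (K₂ * n) :=
          mul_le_mul_of_nonneg_left (h3.trans h4) (Real.exp_pos _).le
      _ = K₃ * n := by rw [hK₃]; ring
  have hfsum : ∑' k, pw s k * f k ≤ 1 / 2 := by
    rcases le_total s ((n : ℝ) ^ 2 / 8) with hcase | hcase
    · refine (pw_cheb hs hf0 hf1 (a := n ^ 2 / 4) (by positivity) (fun k hk => ?_)).trans ?_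
      · have h1 : (k : ℝ) ≤ s - n / 2 := by
          rcases hbadk k hk with h2 | h2
          · have : (k : ℝ) < n := by exact_mod_cast h2
            linarith
          · have : (k : ℝ) + 2 * n < j₀ := by exact_mod_cast h2
            linarith
        nlinarith
      · rw [div_le_iff₀ (by positivity)]
        linarith
    · have hspos : 0 < s := by nlinarith
      refine (pw_cheb hs hf0 hf1 (a := s ^ 2 / 2) (by positivity) (fun k hk => ?_)).trans ?_
      · have h1 : (k : ℝ) ≤ s / 4 := by
          rcases hbadk k hk with h2 | h2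
          · have : (k : ℝ) < n := by exact_mod_cast h2
            nlinarith
          · have h3 : (k : ℝ) + 2 * n < j₀ := by exact_mod_cast h2
            have h4 : (j₀ : ℝ) ≤ j₁ := by exact_mod_cast hj₀1
            nlinarith
        nlinarith
      · rw [div_le_iff₀ (by positivity)]
        nlinarith
  rw [heat_sum hμ (by omega) hs]
  have hcst : ∑ y, π y * (1 - g y) = ∑' k, pw s k * ∑ y, π y * (1 - g y) := by
    rw [tsum_mul_right, (hasSum_pw s).tsum_eq, one_mul]
  have hS1 : Summable (fun k => pw s k * ∑ y, (jump μ n ^ k) η y * g y) := by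
    apply summable_pw_mul hs (C := 1)
    intro k
    rw [abs_of_nonneg]
    · rw [← jpow_row hμ (by omega : 0 < n) k η]
      apply Finset.sum_le_sum
      intro y _
      have := jpow_nonneg (n := n) hμ k η y
      nlinarith [hg1 y]
    · exact Finset.sum_nonneg fun y _ => mul_nonneg (jpow_nonneg hμ k η y) (hg0 y)
  have hS2 : Summable (fun k => pw s k * ∑ y, π y * (1 - g y)) :=
    (hasSum_pw s).summable.mul_right _
  have hSf : Summable (fun k => pw s k * f k) :=
    summable_pw_mul hs (C := 1) (fun k => by rw [abs_of_nonneg (hf0 k)]; exact hf1 k)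
  rw [hcst, ← Summable.tsum_add hS1 hS2]
  have hlow : ∑' k, (pw s k * c - c * (pw s k * f k)) ≤
      ∑' k, (pw s k * ∑ y, (jump μ n ^ k) η y * g y + pw s k * ∑ y, π y * (1 - g y)) := by
    apply Summable.tsum_le_tsum
    · intro k
      have hpk := pw_nonneg hs k
      rw [← mul_add]
      have e : pw s k * c - c * (pw s k * f k) = pw s k * (c * (1 - f k)) := by ring
      rw [e]
      apply mul_le_mul_of_nonneg_left _ hpk
      by_cases hfk : f k = 0
      · rw [hfk, sub_zero, mul_one]
        have h1 : JJ d n ≤ k ∧ md μ n η (k - JJ d n) ≤ K₃ * n := by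
          by_contra hcon
          rw [hf] at hfk
          dsimp only at hfk
          rw [if_neg hcon] at hfk
          exact one_ne_zero hfk
        have h2 := hov n (by omega) π hπ η (k - JJ d n) h1.2 g hg0 hg1
        rw [Nat.sub_add_cancel h1.1] at h2
        exact h2
      · have h1 : f k = 1 := by
          rw [hf] at hfk ⊢
          dsimp only at hfk ⊢
          split_ifs with h
          · rw [if_pos h] at hfk
            exact absurd rfl hfk
          · rfl
        rw [h1, sub_self, mul_zero]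
        apply add_nonneg
        · exact Finset.sum_nonneg fun y _ => mul_nonneg (jpow_nonneg hμ k η y) (hg0 y)
        · exact Finset.sum_nonneg fun y _ => mul_nonneg (hπ.1.1 y) (by linarith [hg1 y])
    · exact ((hasSum_pw s).summable.mul_right c).sub (hSf.mul_left c)
    · exact hS1.add hS2
  refine le_trans ?_ hlow
  rw [Summable.tsum_sub ((hasSum_pw s).summable.mul_right c) (hSf.mul_left c), tsum_mul_right,
    tsum_mul_left, (hasSum_pw s).tsum_eq]
  nlinarith

end Pool.Agent.MP820675
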