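import Pool.Agent.Lib.MP_820675_pr.Basic

open Filter Topology Asymptotics Finset

namespace Pool.Agent.MP820675

variable {d n : ℕ} {μ : Equiv.Perm (Fin d) → ℝ}

/-! ### Linear algebra of real matrices -/

/-- Squared Euclidean norm. -/
def nrm2 (M : V d) : ℝ := ∑ i, ∑ a, (M i a) ^ 2

/-- Euclidean inner product. -/
def ip (M N : V d) : ℝ := ∑ i, ∑ a, M i a * N i a

lemma nrm2_nonneg (M : V d) : 0 ≤ nrm2 M :=
  Finset.sum_nonneg fun _ _ => Finset.sum_nonneg fun _ _ => sq_nonneg _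

lemma nrm2_add (M N : V d) : nrm2 (M + N) = nrm2 M + 2 * ip M N + nrm2 N := by
  unfold nrm2 ip
  simp only [Pi.add_apply, Finset.mul_sum, ← Finset.sum_add_distrib]
  apply Finset.sum_congr rfl
  intro i _
  apply Finset.sum_congr rfl
  intro a _
  ring

lemma ip_add (Z M N : V d) : ip Z (M + N) = ip Z M + ip Z N := by
  unfold ip
  simp only [Pi.add_apply, ← Finset.sum_add_distrib]
  apply Finset.sum_congr rfl
  intro i _
  apply Finset.sum_congr rfl
  intro a _
  ring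

lemma entry_sq_le (M : V d) (i a : Fin d) : (M i a) ^ 2 ≤ nrm2 M := by
  unfold nrm2
  calc (M i a) ^ 2 ≤ ∑ b, (M i b) ^ 2 :=
        Finset.single_le_sum (f := fun b => (M i b) ^ 2) (fun _ _ => sq_nonneg _)
          (Finset.mem_univ a)
    _ ≤ ∑ j, ∑ b, (M j b) ^ 2 :=
        Finset.single_le_sum (f := fun j => ∑ b, (M j b) ^ 2)
          (fun _ _ => Finset.sum_nonneg fun _ _ => sq_nonneg _) (Finset.mem_univ i)

lemma nrm2_Del (σ : Equiv.Perm (Fin d)) (c : Fin d → Fin d) : nrm2 (Del σ c) ≤ 4 * d := by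
  unfold nrm2 Del
  calc ∑ i, ∑ a, (-(if c i = a then (1 : ℝ) else 0) + (if c (σ.symm i) = a then 1 else 0)) ^ 2
      ≤ ∑ i : Fin d, ∑ a, (2 * (if c i = a then (1 : ℝ) else 0) +
          2 * (if c (σ.symm i) = a then (1 : ℝ) else 0)) := by
        apply Finset.sum_le_sum
        intro i _
        apply Finset.sum_le_sum
        intro a _
        split_ifs <;> norm_num
    _ = 4 * d := by
        simp only [Finset.sum_add_distrib, ← Finset.mul_sum, Finset.sum_ite_eq,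
          Finset.mem_univ, if_true, Finset.sum_const, Finset.card_univ, Fintype.card_fin,
          nsmul_eq_mul]
        ring

/-- The mean evolution. -/
noncomputable def Am (μ : Equiv.Perm (Fin d) → ℝ) (n : ℕ) (M : V d) : V d :=
  fun i a => (1 - 1 / (n : ℝ)) * M i a + (1 / (n : ℝ)) * ∑ j, U μ j i * M j a

lemma Am_sub (M N : V d) : Am μ n (M - N) = Am μ n M - Am μ n N := by
  funext i a
  unfold Am
  simp only [Pi.sub_apply, mul_sub, Finset.sum_sub_distrib]
  ring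

lemma ip_Del (Z : V d) (σ : Equiv.Perm (Fin d)) (c : Fin d → Fin d) :
    ip Z (Del σ c) = ∑ i, (-(Z i (c i)) + Z i (c (σ.symm i))) := by
  unfold ip Del
  apply Finset.sum_congr rfl
  intro i _
  simp only [mul_add, mul_neg, mul_ite, mul_one, mul_zero, Finset.sum_add_distrib,
    Finset.sum_neg_distrib, Finset.sum_ite_eq, Finset.mem_univ, if_true]

/-! ### The matrix `U` -/

lemma U_nonneg (hμ : IsDist μ) (i j : Fin d) : 0 ≤ U μ i j := by
  unfold U
  apply Finset.sum_nonneg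
  intro σ _
  split_ifs
  · exact hμ.1 σ
  · exact le_rfl

lemma U_row (hμ : IsDist μ) (i : Fin d) : ∑ j, U μ i j = 1 := by
  unfold U
  rw [Finset.sum_comm]
  simp [hμ.2]

lemma U_col (hμ : IsDist μ) (j : Fin d) : ∑ i, U μ i j = 1 := by
  unfold U
  rw [Finset.sum_comm]
  have : ∀ σ : Equiv.Perm (Fin d), ∑ i, (if σ i = j then μ σ else 0) = μ σ := by
    intro σ
    rw [Finset.sum_eq_single (σ.symm j)]
    · simp
    · intro b _ hb
      rw [if_neg]
      intro h
      apply hb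
      rw [← h]
      simp
    · intro h
      exact absurd (Finset.mem_univ _) h
  simp_rw [this]
  exact hμ.2

lemma sum_mu_symm (i a : Fin d) (M : V d) :
    ∑ σ, μ σ * M (σ.symm i) a = ∑ j, U μ j i * M j a := by
  unfold U
  simp_rw [Finset.sum_mul]
  rw [Finset.sum_comm]
  apply Finset.sum_congr rfl
  intro σ _
  rw [Finset.sum_eq_single (σ.symm i)]
  · simp
  · intro b _ hb
    rw [if_neg, zero_mul]
    intro h
    apply hb
    rw [← h]
    simp
  · intro h
    exact absurd (Finset.mem_univ _) h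

/-! ### Expectations under the jump operator -/

lemma Kop_const (hμ : IsDist μ) (hn : 0 < n) (M : V d) (hM : ∀ i, ∑ a, M i a = n) (r : ℝ) :
    Kop μ n (fun _ => r) M = r := by
  unfold Kop
  have hn' : (n : ℝ) ≠ 0 := by exact_mod_cast hn.ne'
  simp_rw [← Finset.sum_mul]
  rw [sum_prod_eq (fun i a => M i a / n) (fun i => by
    rw [← Finset.sum_div, hM i, div_self hn'])]
  rw [one_mul, hμ.2, one_mul]

lemma Kop_ip (hμ : IsDist μ) (hn : 0 < n) (M : V d) (hM : ∀ i, ∑ a, M i a = n) (Z : V d) :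
    ∑ σ, μ σ * ∑ c : Fin d → Fin d, (∏ i, M i (c i) / n) * ip Z (Del σ c) =
      ip Z (Am μ n M - M) := by
  have hn' : (n : ℝ) ≠ 0 := by exact_mod_cast hn.ne'
  have hw : ∀ i, ∑ a, M i a / (n : ℝ) = 1 := fun i => by
    rw [← Finset.sum_div, hM i, div_self hn']
  have h1 : ∀ σ : Equiv.Perm (Fin d),
      ∑ c : Fin d → Fin d, (∏ i, M i (c i) / n) * ip Z (Del σ c) =
        ∑ i, ∑ a, Z i a * (-(M i a / n) + M (σ.symm i) a / n) := by
    intro σ
    simp_rw [ip_Del, Finset.mul_sum]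
    rw [Finset.sum_comm]
    apply Finset.sum_congr rfl
    intro i _
    simp_rw [mul_add, mul_neg, Finset.sum_add_distrib, Finset.sum_neg_distrib]
    rw [sum_prod_mul (fun i a => M i a / n) hw i (Z i),
      sum_prod_mul (fun i a => M i a / n) hw (σ.symm i) (Z i)]
    congr 1
    · congr 1
      apply Finset.sum_congr rfl
      intro a _
      ring
    · apply Finset.sum_congr rfl
      intro a _
      ring
  simp_rw [h1, Finset.mul_sum]
  rw [Finset.sum_comm]
  unfold ip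
  apply Finset.sum_congr rfl
  intro i _
  rw [Finset.sum_comm]
  apply Finset.sum_congr rfl
  intro a _
  have h2 : ∑ σ, μ σ * (Z i a * (-(M i a / n) + M (σ.symm i) a / n)) =
      Z i a * (-(M i a / n) * ∑ σ, μ σ + (∑ σ, μ σ * M (σ.symm i) a) / n) := by
    rw [Finset.sum_div, Finset.mul_sum, ← Finset.sum_add_distrib, Finset.mul_sum]
    apply Finset.sum_congr rfl
    intro σ _
    ring
  rw [h2, sum_mu_symm, hμ.2]
  simp only [Pi.sub_apply, Am]
  ring

lemma Kop_nrm2_le (hμ : IsDist μ) (hn : 0 < n) (M : V d) (hM : ∀ i, ∑ a, M i a = n)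
    (hM0 : ∀ i a, 0 ≤ M i a) (B : V d) :
    Kop μ n (fun X => nrm2 (X - Am μ n B)) M ≤ nrm2 (Am μ n (M - B)) + 4 * d := by
  have hn' : (n : ℝ) ≠ 0 := by exact_mod_cast hn.ne'
  set Z : V d := M - Am μ n B with hZ
  have h1 : Kop μ n (fun X => nrm2 (X - Am μ n B)) M =
      Kop μ n (fun _ => nrm2 Z) M +
      2 * (∑ σ, μ σ * ∑ c : Fin d → Fin d, (∏ i, M i (c i) / n) * ip Z (Del σ c)) +
      ∑ σ, μ σ * ∑ c : Fin d → Fin d, (∏ i, M i (c i) / n) * nrm2 (Del σ c) := by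
    unfold Kop
    rw [Finset.mul_sum, ← Finset.sum_add_distrib, ← Finset.sum_add_distrib]
    apply Finset.sum_congr rfl
    intro σ _
    have e : ∀ c : Fin d → Fin d, nrm2 (M + Del σ c - Am μ n B) =
        nrm2 Z + 2 * ip Z (Del σ c) + nrm2 (Del σ c) := by
      intro c
      rw [← nrm2_add]
      congr 1
      rw [hZ]
      abel
    simp_rw [e]
    simp_rw [mul_add, Finset.sum_add_distrib]
    have e2 : ∑ c : Fin d → Fin d, (∏ i, M i (c i) / (n : ℝ)) * (2 * ip Z (Del σ c)) =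
        2 * ∑ c : Fin d → Fin d, (∏ i, M i (c i) / (n : ℝ)) * ip Z (Del σ c) := by
      rw [Finset.mul_sum]
      apply Finset.sum_congr rfl
      intro c _
      ring
    rw [e2]
    ring
  rw [h1, Kop_const hμ hn M hM, Kop_ip hμ hn M hM]
  have h2 : ∑ σ, μ σ * ∑ c : Fin d → Fin d, (∏ i, M i (c i) / n) * nrm2 (Del σ c) ≤
      4 * d := by
    calc ∑ σ, μ σ * ∑ c : Fin d → Fin d, (∏ i, M i (c i) / n) * nrm2 (Del σ c)
        ≤ ∑ σ, μ σ * ∑ c : Fin d → Fin d, (∏ i, M i (c i) / n) * (4 * d) := by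
          apply Finset.sum_le_sum
          intro σ _
          apply mul_le_mul_of_nonneg_left _ (hμ.1 σ)
          apply Finset.sum_le_sum
          intro c _
          apply mul_le_mul_of_nonneg_left (nrm2_Del σ c)
          exact Finset.prod_nonneg fun i _ => div_nonneg (hM0 _ _) (Nat.cast_nonneg n)
      _ = 4 * d := Kop_const hμ hn M hM (4 * d)
  have h3 : nrm2 (Am μ n (M - B)) = nrm2 Z + 2 * ip Z (Am μ n M - M) +
      nrm2 (Am μ n M - M) := by
    rw [← nrm2_add, Am_sub, hZ]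
    congr 1
    abel
  rw [h3]
  have := nrm2_nonneg (Am μ n M - M)
  linarith

/-! ### Contraction -/

/-- The column sums vanish. -/
def ZeroCol (v : V d) : Prop := ∀ a, ∑ i, v i a = 0

lemma zeroCol_Am (hμ : IsDist μ) {v : V d} (hv : ZeroCol v) : ZeroCol (Am μ n v) := by
  intro a
  unfold Am
  rw [Finset.sum_add_distrib, ← Finset.mul_sum, ← Finset.mul_sum, hv a, Finset.sum_comm]
  simp_rw [← Finset.sum_mul, U_row hμ, one_mul]
  rw [hv a]
  ring

/-- Dirichlet form. -/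
noncomputable def dir (μ : Equiv.Perm (Fin d) → ℝ) (f : Fin d → ℝ) : ℝ :=
  ∑ i, ∑ j, U μ i j * (f i - f j) ^ 2

lemma dir_nonneg (hμ : IsDist μ) (f : Fin d → ℝ) : 0 ≤ dir μ f :=
  Finset.sum_nonneg fun i _ => Finset.sum_nonneg fun j _ =>
    mul_nonneg (U_nonneg hμ i j) (sq_nonneg _)

lemma edge_le (hμ : IsDist μ) {i j : Fin d} (h : 0 < U μ i j) (f : Fin d → ℝ) :
    (f i - f j) ^ 2 ≤ (U μ i j)⁻¹ * dir μ f := by
  have h1 : U μ i j * (f i - f j) ^ 2 ≤ dir μ f := by
    unfold dir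
    calc U μ i j * (f i - f j) ^ 2 ≤ ∑ j', U μ i j' * (f i - f j') ^ 2 :=
          Finset.single_le_sum (f := fun j' => U μ i j' * (f i - f j') ^ 2)
            (fun j' _ => mul_nonneg (U_nonneg hμ i j') (sq_nonneg _)) (Finset.mem_univ j)
      _ ≤ _ := Finset.single_le_sum (f := fun i' => ∑ j', U μ i' j' * (f i' - f j') ^ 2)
            (fun i' _ => Finset.sum_nonneg fun j' _ =>
              mul_nonneg (U_nonneg hμ i' j') (sq_nonneg _)) (Finset.mem_univ i)
  rw [inv_mul_eq_div, le_div_iff₀ h]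
  linarith

lemma exists_pair (hμ : IsDist μ) (hU : IsIrred (U μ)) (i j : Fin d) :
    ∃ C : ℝ, 0 ≤ C ∧ ∀ f : Fin d → ℝ, (f i - f j) ^ 2 ≤ C * dir μ f := by
  obtain ⟨k, hk⟩ := hU i j
  induction k generalizing j with
  | zero =>
    refine ⟨0, le_rfl, fun f => ?_⟩
    have : i = j := by
      by_contra hne
      rw [pow_zero, Matrix.one_apply_ne hne] at hk
      exact lt_irrefl _ hk
    subst this
    simp
  | succ k ih =>
    rw [pow_succ, Matrix.mul_apply] at hk
    obtain ⟨l, _, hl⟩ := Finset.exists_lt_of_sum_lt (f := fun _ : Fin d => (0 : ℝ))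
      (g := fun l => (U μ ^ k) i l * U μ l j) (s := Finset.univ) (by simpa using hk)
    have hUl := U_nonneg hμ l j
    have hpos : 0 < U μ l j := by
      rcases hUl.lt_or_eq with h | h
      · exact h
      · rw [← h, mul_zero] at hl
        exact absurd hl (lt_irrefl _)
    have hpos' : 0 < (U μ ^ k) i l := by
      by_contra hcon
      rw [not_lt] at hcon
      have := mul_nonpos_of_nonpos_of_nonneg hcon hUl
      linarith
    obtain ⟨C, hC0, hC⟩ := ih l hpos'
    refine ⟨2 * C + 2 * (U μ l j)⁻¹, by positivity, fun f => ?_⟩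
    have h1 := hC f
    have h2 := edge_le hμ hpos f
    have h3 : (f i - f j) ^ 2 ≤ 2 * (f i - f l) ^ 2 + 2 * (f l - f j) ^ 2 := by
      nlinarith [sq_nonneg ((f i - f l) - (f l - f j))]
    calc (f i - f j) ^ 2 ≤ 2 * (C * dir μ f) + 2 * ((U μ l j)⁻¹ * dir μ f) := by linarith
      _ = _ := by ring

/-- Poincaré inequality. -/
lemma exists_gap (hμ : IsDist μ) (hU : IsIrred (U μ)) :
    ∃ γ : ℝ, 0 < γ ∧ γ ≤ 1 ∧ ∀ f : Fin d → ℝ, ∑ i, f i = 0 →
      γ * ∑ i, (f i) ^ 2 ≤ (1 / 2) * dir μ f := by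
  choose C hC0 hC using fun i j => exists_pair hμ hU i j
  set T : ℝ := ∑ i, ∑ j, C i j with hT
  have hT0 : 0 ≤ T := Finset.sum_nonneg fun i _ => Finset.sum_nonneg fun j _ => hC0 i j
  refine ⟨(1 + T)⁻¹, by positivity, inv_le_one_of_one_le₀ (by linarith), fun f hf => ?_⟩
  have h1 : ∑ i, ∑ j, (f i - f j) ^ 2 = 2 * d * ∑ i, (f i) ^ 2 := by
    have : ∀ i j : Fin d, (f i - f j) ^ 2 = (f i) ^ 2 - 2 * f i * f j + (f j) ^ 2 := by
      intro i j; ring
    simp_rw [this, Finset.sum_add_distrib, Finset.sum_sub_distrib, ← Finset.mul_sum, hf]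
    simp
    rw [← Finset.mul_sum]
    ring
  have h2 : ∑ i, ∑ j, (f i - f j) ^ 2 ≤ T * dir μ f := by
    rw [hT, Finset.sum_mul]
    apply Finset.sum_le_sum
    intro i _
    rw [Finset.sum_mul]
    exact Finset.sum_le_sum fun j _ => hC i j f
  rcases Nat.eq_zero_or_pos d with hd | hd
  · subst hd
    simp [dir]
  have hd' : (1 : ℝ) ≤ d := by exact_mod_cast hd
  have hS : 0 ≤ ∑ i, (f i) ^ 2 := Finset.sum_nonneg fun _ _ => sq_nonneg _
  have hD := dir_nonneg hμ f
  have h3 : 2 * ∑ i, (f i) ^ 2 ≤ T * dir μ f := by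
    rw [h1] at h2
    nlinarith
  rw [inv_mul_le_iff₀ (by linarith)]
  nlinarith

/-- The average of `f` against the columns of `U`. -/
lemma vec_bounds (hμ : IsDist μ) (f : Fin d → ℝ) :
    ∑ i, (∑ j, U μ j i * f j) ^ 2 ≤ ∑ i, (f i) ^ 2 ∧
    ∑ i, f i * (∑ j, U μ j i * f j) = ∑ i, (f i) ^ 2 - (1 / 2) * dir μ f ∧
    -(∑ i, (f i) ^ 2) ≤ ∑ i, f i * (∑ j, U μ j i * f j) := by
  have hJ : ∀ i, (∑ j, U μ j i * f j) ^ 2 ≤ ∑ j, U μ j i * (f j) ^ 2 := by
    intro i
    have h := Finset.sum_mul_sq_le_sq_mul_sq Finset.univ (fun j => Real.sqrt (U μ j i))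
      (fun j => Real.sqrt (U μ j i) * f j)
    have e1 : ∀ j, Real.sqrt (U μ j i) * (Real.sqrt (U μ j i) * f j) = U μ j i * f j := by
      intro j
      rw [← mul_assoc, Real.mul_self_sqrt (U_nonneg hμ j i)]
    have e2 : ∀ j, Real.sqrt (U μ j i) ^ 2 = U μ j i := fun j => Real.sq_sqrt (U_nonneg hμ j i)
    have e3 : ∀ j, (Real.sqrt (U μ j i) * f j) ^ 2 = U μ j i * (f j) ^ 2 := by
      intro j
      rw [mul_pow, e2]
    simp_rw [e1, e2, e3, U_col hμ, one_mul] at h
    exact h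
  refine ⟨?_, ?_, ?_⟩
  · calc ∑ i, (∑ j, U μ j i * f j) ^ 2 ≤ ∑ i, ∑ j, U μ j i * (f j) ^ 2 :=
          Finset.sum_le_sum fun i _ => hJ i
      _ = ∑ j, (f j) ^ 2 := by
          rw [Finset.sum_comm]
          simp_rw [← Finset.sum_mul, U_row hμ, one_mul]
  · unfold dir
    have e : ∀ i j : Fin d, U μ i j * (f i - f j) ^ 2 =
        U μ i j * (f i) ^ 2 - 2 * (f j * (U μ i j * f i)) + U μ i j * (f j) ^ 2 := by
      intro i j; ring
    simp_rw [e, Finset.sum_add_distrib, Finset.sum_sub_distrib]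
    have e1 : ∑ i, ∑ j, U μ i j * (f i) ^ 2 = ∑ i, (f i) ^ 2 := by
      simp_rw [← Finset.sum_mul, U_row hμ, one_mul]
    have e2 : ∑ i, ∑ j, U μ i j * (f j) ^ 2 = ∑ i, (f i) ^ 2 := by
      rw [Finset.sum_comm]
      simp_rw [← Finset.sum_mul, U_col hμ, one_mul]
    have e3 : ∑ i, ∑ j, 2 * (f j * (U μ i j * f i)) = 2 * ∑ i, f i * (∑ j, U μ j i * f j) := by
      rw [Finset.sum_comm, Finset.mul_sum]
      apply Finset.sum_congr rfl
      intro i _
      rw [← Finset.mul_sum, ← Finset.mul_sum]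
    rw [e1, e2, e3]
    ring
  · have h : 0 ≤ ∑ i, ∑ j, U μ j i * (f i + f j) ^ 2 :=
      Finset.sum_nonneg fun i _ => Finset.sum_nonneg fun j _ =>
        mul_nonneg (U_nonneg hμ j i) (sq_nonneg _)
    have e : ∀ i j : Fin d, U μ j i * (f i + f j) ^ 2 =
        U μ j i * (f i) ^ 2 + 2 * (f i * (U μ j i * f j)) + U μ j i * (f j) ^ 2 := by
      intro i j; ring
    simp_rw [e, Finset.sum_add_distrib] at h
    have e1 : ∑ i, ∑ j, U μ j i * (f i) ^ 2 = ∑ i, (f i) ^ 2 := by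
      simp_rw [← Finset.sum_mul, U_col hμ, one_mul]
    have e2 : ∑ i, ∑ j, U μ j i * (f j) ^ 2 = ∑ i, (f i) ^ 2 := by
      rw [Finset.sum_comm]
      simp_rw [← Finset.sum_mul, U_row hμ, one_mul]
    have e3 : ∑ i, ∑ j, 2 * (f i * (U μ j i * f j)) = 2 * ∑ i, f i * (∑ j, U μ j i * f j) := by
      rw [Finset.mul_sum]
      apply Finset.sum_congr rfl
      intro i _
      rw [← Finset.mul_sum, ← Finset.mul_sum]
    rw [e1, e2, e3] at h
    linarith

lemma vec_contract (hμ : IsDist μ) {γ : ℝ} (hγ1 : 0 < γ)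
    (hγ : ∀ f : Fin d → ℝ, ∑ i, f i = 0 → γ * ∑ i, (f i) ^ 2 ≤ (1 / 2) * dir μ f)
    (hn : 2 ≤ n) (f : Fin d → ℝ) :
    (∑ i, f i = 0 → ∑ i, ((1 - 1 / (n : ℝ)) * f i + (1 / (n : ℝ)) * ∑ j, U μ j i * f j) ^ 2 ≤
      (1 - γ / n) * ∑ i, (f i) ^ 2) ∧
    (1 - 4 / (n : ℝ)) * ∑ i, (f i) ^ 2 ≤
      ∑ i, ((1 - 1 / (n : ℝ)) * f i + (1 / (n : ℝ)) * ∑ j, U μ j i * f j) ^ 2 := by
  obtain ⟨h1, h2, h3⟩ := vec_bounds hμ f
  have hn' : (2 : ℝ) ≤ n := by exact_mod_cast hn
  set x : ℝ := 1 / (n : ℝ) with hx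
  have hx0 : 0 < x := by positivity
  have hx1 : x ≤ 1 / 2 := by
    rw [hx]
    exact one_div_le_one_div_of_le (by norm_num) hn'
  set S := ∑ i, (f i) ^ 2 with hS
  have hS0 : 0 ≤ S := Finset.sum_nonneg fun _ _ => sq_nonneg _
  set Q := ∑ i, (∑ j, U μ j i * f j) ^ 2 with hQ
  have hQ0 : 0 ≤ Q := Finset.sum_nonneg fun _ _ => sq_nonneg _
  set R := ∑ i, f i * (∑ j, U μ j i * f j) with hR
  have hexp : ∑ i, ((1 - x) * f i + x * ∑ j, U μ j i * f j) ^ 2 =
      (1 - x) ^ 2 * S + 2 * (1 - x) * x * R + x ^ 2 * Q := by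
    rw [hS, hQ, hR, Finset.mul_sum, Finset.mul_sum, Finset.mul_sum, ← Finset.sum_add_distrib,
      ← Finset.sum_add_distrib]
    apply Finset.sum_congr rfl
    intro i _
    ring
  have hγn : γ / n = γ * x := by rw [hx]; ring
  have h4n : 4 / (n : ℝ) = 4 * x := by rw [hx]; ring
  rw [hexp, hγn, h4n]
  constructor
  · intro hf
    have hg := hγ f hf
    have hR1 : R ≤ (1 - γ) * S := by
      rw [h2]
      linarith
    have hxx : 0 ≤ (1 - x) * x := by nlinarith
    have k1 : 2 * (1 - x) * x * R ≤ 2 * (1 - x) * x * ((1 - γ) * S) := by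
      nlinarith
    have k2 : x ^ 2 * Q ≤ x ^ 2 * S := mul_le_mul_of_nonneg_left h1 (sq_nonneg x)
    have k3 : 0 ≤ γ * x * (1 - 2 * x) * S := by
      have : 0 ≤ 1 - 2 * x := by linarith
      positivity
    nlinarith
  · have hxx : 0 ≤ (1 - x) * x := by nlinarith
    have k1 : 2 * (1 - x) * x * (-S) ≤ 2 * (1 - x) * x * R := by
      nlinarith
    have k2 : 0 ≤ x ^ 2 * Q := mul_nonneg (sq_nonneg x) hQ0
    nlinarith [mul_nonneg (sq_nonneg x) hS0]

lemma nrm2_col (v : V d) : nrm2 v = ∑ a, ∑ i, (v i a) ^ 2 := by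
  unfold nrm2
  rw [Finset.sum_comm]

lemma nrm2_Am_le (hμ : IsDist μ) {γ : ℝ} (hγ1 : 0 < γ)
    (hγ : ∀ f : Fin d → ℝ, ∑ i, f i = 0 → γ * ∑ i, (f i) ^ 2 ≤ (1 / 2) * dir μ f)
    (hn : 2 ≤ n) {v : V d} (hv : ZeroCol v) : nrm2 (Am μ n v) ≤ (1 - γ / n) * nrm2 v := by
  rw [nrm2_col, nrm2_col, Finset.mul_sum]
  apply Finset.sum_le_sum
  intro a _
  exact (vec_contract hμ hγ1 hγ hn (fun i => v i a)).1 (hv a)

lemma nrm2_Am_ge (hμ : IsDist μ) {γ : ℝ} (hγ1 : 0 < γ)
    (hγ : ∀ f : Fin d → ℝ, ∑ i, f i = 0 → γ * ∑ i, (f i) ^ 2 ≤ (1 / 2) * dir μ f)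
    (hn : 2 ≤ n) (v : V d) : (1 - 4 / (n : ℝ)) * nrm2 v ≤ nrm2 (Am μ n v) := by
  rw [nrm2_col, nrm2_col, Finset.mul_sum]
  apply Finset.sum_le_sum
  intro a _
  exact (vec_contract hμ hγ1 hγ hn (fun i => v i a)).2

/-- The equilibrium matrix. -/
noncomputable def eqm (d n : ℕ) : V d := fun _ _ => (n : ℝ) / d

lemma Am_eqm (hμ : IsDist μ) : Am μ n (eqm d n) = eqm d n := by
  funext i a
  unfold Am eqm
  rw [← Finset.sum_mul, U_col hμ]
  ring

lemma zeroCol_emb_sub (m m' : State d n) : ZeroCol (emb m - emb m') := by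
  intro a
  simp only [Pi.sub_apply, Finset.sum_sub_distrib, emb_col, sub_self]

lemma zeroCol_emb_eqm (hd : 0 < d) (m : State d n) : ZeroCol (emb m - eqm d n) := by
  intro a
  have hd' : (d : ℝ) ≠ 0 := by exact_mod_cast hd.ne'
  simp only [Pi.sub_apply, Finset.sum_sub_distrib, emb_col, eqm, Finset.sum_const,
    Finset.card_univ, Fintype.card_fin, nsmul_eq_mul]
  field_simp
  ring

lemma jump_nonneg (hμ : IsDist μ) (m y : State d n) : 0 ≤ jump μ n m y := by
  classical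
  unfold jump
  apply Finset.sum_nonneg
  intro σ _
  apply mul_nonneg (hμ.1 σ)
  apply Finset.sum_nonneg
  intro c _
  apply mul_nonneg
  · exact Finset.prod_nonneg fun i _ => div_nonneg (Nat.cast_nonneg _) (Nat.cast_nonneg _)
  · split_ifs <;> norm_num

lemma jump_row (hμ : IsDist μ) (hn : 0 < n) (m : State d n) : ∑ y, jump μ n m y = 1 := by
  have h := jump_apply μ (fun _ => (1 : ℝ)) m
  simp only [mul_one] at h
  rw [h, Kop_const hμ hn (emb m) (emb_row m)]

lemma jpow_nonneg (hμ : IsDist μ) (k : ℕ) (m y : State d n) : 0 ≤ (jump μ n ^ k) m y := by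
  induction k generalizing y with
  | zero =>
    simp only [pow_zero, Matrix.one_apply]
    split_ifs <;> norm_num
  | succ k ih =>
    rw [pow_succ, Matrix.mul_apply]
    exact Finset.sum_nonneg fun z _ => mul_nonneg (ih z) (jump_nonneg hμ z y)

lemma jpow_row (hμ : IsDist μ) (hn : 0 < n) (k : ℕ) (m : State d n) :
    ∑ y, (jump μ n ^ k) m y = 1 := by
  induction k with
  | zero => simp [Matrix.one_apply]
  | succ k ih =>
    simp_rw [pow_succ, Matrix.mul_apply]
    rw [Finset.sum_comm]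
    simp_rw [← Finset.mul_sum, jump_row hμ hn, mul_one]
    exact ih

/-- One-step Lyapunov bound. -/
lemma one_step (hμ : IsDist μ) {γ : ℝ} (hγ1 : 0 < γ)
    (hγ : ∀ f : Fin d → ℝ, ∑ i, f i = 0 → γ * ∑ i, (f i) ^ 2 ≤ (1 / 2) * dir μ f)
    (hn : 2 ≤ n) (m : State d n) (B : V d) (hB : ZeroCol (emb m - B)) :
    ∑ y, jump μ n m y * nrm2 (emb y - Am μ n B) ≤
      (1 - γ / n) * nrm2 (emb m - B) + 4 * d := by
  rw [jump_apply μ (fun X => nrm2 (X - Am μ n B)) m]
  refine (Kop_nrm2_le hμ (by omega) (emb m) (emb_row m) (emb_nonneg m) B).trans ?_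
  have := nrm2_Am_le hμ hγ1 hγ hn hB
  linarith

lemma colsum_Am (hμ : IsDist μ) {B : V d} {r : ℝ} (hB : ∀ a, ∑ i, B i a = r) :
    ∀ a, ∑ i, Am μ n B i a = r := by
  intro a
  unfold Am
  rw [Finset.sum_add_distrib, ← Finset.mul_sum, ← Finset.mul_sum, hB a, Finset.sum_comm]
  simp_rw [← Finset.sum_mul, U_row hμ, one_mul]
  rw [hB a]
  ring

lemma colsum_iter (hμ : IsDist μ) {B : V d} {r : ℝ} (hB : ∀ a, ∑ i, B i a = r) (k : ℕ) :
    ∀ a, ∑ i, (Am μ n)^[k] B i a = r := by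
  induction k with
  | zero => exact hB
  | succ k ih =>
    rw [Function.iterate_succ_apply']
    exact colsum_Am hμ ih

/-- Variance bound, uniform in the number of steps. -/
lemma variance_bound (hμ : IsDist μ) {γ : ℝ} (hγ1 : 0 < γ) (hγ2 : γ ≤ 1)
    (hγ : ∀ f : Fin d → ℝ, ∑ i, f i = 0 → γ * ∑ i, (f i) ^ 2 ≤ (1 / 2) * dir μ f)
    (hn : 2 ≤ n) (m : State d n) (k : ℕ) :
    ∑ y, (jump μ n ^ k) m y * nrm2 (emb y - (Am μ n)^[k] (emb m)) ≤ 4 * d * n / γ := by
  have hn' : (2 : ℝ) ≤ n := by exact_mod_cast hn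
  induction k with
  | zero =>
    simp [Matrix.one_apply, nrm2]
    positivity
  | succ k ih =>
    have e : ∑ y, (jump μ n ^ (k + 1)) m y * nrm2 (emb y - (Am μ n)^[k + 1] (emb m)) =
        ∑ z, (jump μ n ^ k) m z *
          ∑ y, jump μ n z y * nrm2 (emb y - Am μ n ((Am μ n)^[k] (emb m))) := by
      rw [Function.iterate_succ_apply']
      simp_rw [pow_succ, Matrix.mul_apply, Finset.sum_mul, Finset.mul_sum]
      rw [Finset.sum_comm]
      apply Finset.sum_congr rfl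
      intro z _
      apply Finset.sum_congr rfl
      intro y _
      ring
    rw [e]
    calc ∑ z, (jump μ n ^ k) m z *
          ∑ y, jump μ n z y * nrm2 (emb y - Am μ n ((Am μ n)^[k] (emb m)))
        ≤ ∑ z, (jump μ n ^ k) m z *
          ((1 - γ / n) * nrm2 (emb z - (Am μ n)^[k] (emb m)) + 4 * d) := by
          apply Finset.sum_le_sum
          intro z _
          apply mul_le_mul_of_nonneg_left _ (jpow_nonneg hμ k m z)
          apply one_step hμ hγ1 hγ hn
          intro a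
          simp only [Pi.sub_apply, Finset.sum_sub_distrib, emb_col]
          rw [colsum_iter hμ (r := (n : ℝ)) (fun a => emb_col m a) k a, sub_self]
      _ = (1 - γ / n) * ∑ z, (jump μ n ^ k) m z * nrm2 (emb z - (Am μ n)^[k] (emb m)) +
          4 * d * ∑ z, (jump μ n ^ k) m z := by
          rw [Finset.mul_sum, Finset.mul_sum, ← Finset.sum_add_distrib]
          apply Finset.sum_congr rfl
          intro z _
          ring
      _ ≤ (1 - γ / n) * (4 * d * n / γ) + 4 * d := by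
          rw [jpow_row hμ (by omega), mul_one]
          have h1 : 0 ≤ 1 - γ / n := by
            rw [sub_nonneg, div_le_one (by linarith)]
            linarith
          have := mul_le_mul_of_nonneg_left ih h1
          linarith
      _ = 4 * d * n / γ := by
          field_simp
          ring

/-- Second moment of a stationary law. -/
lemma stationary_bound (hμ : IsDist μ) {γ : ℝ} (hγ1 : 0 < γ)
    (hγ : ∀ f : Fin d → ℝ, ∑ i, f i = 0 → γ * ∑ i, (f i) ^ 2 ≤ (1 / 2) * dir μ f)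
    (hd : 0 < d) (hn : 2 ≤ n) {π : State d n → ℝ} (hπ : IsStationary μ n π) :
    ∑ y, π y * nrm2 (emb y - eqm d n) ≤ 4 * d * n / γ := by
  have hn' : (2 : ℝ) ≤ n := by exact_mod_cast hn
  set S := ∑ y, π y * nrm2 (emb y - eqm d n) with hS
  have h1 : S = ∑ z, π z * ∑ y, jump μ n z y * nrm2 (emb y - Am μ n (eqm d n)) := by
    rw [Am_eqm hμ, hS]
    simp_rw [Finset.mul_sum]
    rw [Finset.sum_comm]
    apply Finset.sum_congr rfl
    intro y _
    have h2 := congrFun hπ.2 y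
    simp only [Matrix.vecMul, dotProduct] at h2
    rw [← h2, Finset.sum_mul]
    apply Finset.sum_congr rfl
    intro z _
    ring
  have h2 : S ≤ (1 - γ / n) * S + 4 * d := by
    calc S = ∑ z, π z * ∑ y, jump μ n z y * nrm2 (emb y - Am μ n (eqm d n)) := h1
      _ ≤ ∑ z, π z * ((1 - γ / n) * nrm2 (emb z - eqm d n) + 4 * d) := by
          apply Finset.sum_le_sum
          intro z _
          apply mul_le_mul_of_nonneg_left _ (hπ.1.1 z)
          exact one_step hμ hγ1 hγ hn z _ (zeroCol_emb_eqm hd z)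
      _ = (1 - γ / n) * S + 4 * d * ∑ z, π z := by
          rw [hS, Finset.mul_sum, Finset.mul_sum, ← Finset.sum_add_distrib]
          apply Finset.sum_congr rfl
          intro z _
          ring
      _ = (1 - γ / n) * S + 4 * d := by rw [hπ.1.2, mul_one]
  have h3 : γ / n * S ≤ 4 * d := by linarith
  rw [le_div_iff₀ hγ1]
  have h4 : S * γ = n * (γ / n * S) := by
    field_simp
  rw [h4]
  nlinarith

end Pool.Agent.MP820675
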