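import Pool.Agent.Lib.MP_820675_pr.Lattice

open Filter Topology Asymptotics Finset

namespace Pool.Agent.MP820675

variable {d n : ℕ} {μ : Equiv.Perm (Fin d) → ℝ}

/-- Relative density of one step. -/
noncomputable def del (n : ℕ) (M : V d) (ω : Om d) : ℝ := (∏ i, (d : ℝ) * M i (ω.2 i) / n) - 1

lemma wt_del (hd : 0 < d) (M : V d) (ω : Om d) :
    wt μ ω * (1 + del n M ω) = μ ω.1 * ∏ i, M i (ω.2 i) / n := by
  unfold wt del
  have hd' : (d : ℝ) ≠ 0 := by exact_mod_cast hd.ne'
  have e : ∏ i, (d : ℝ) * M i (ω.2 i) / n = (d : ℝ) ^ d * ∏ i, M i (ω.2 i) / n := by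
    simp_rw [mul_div_assoc]
    rw [Finset.prod_mul_distrib]
    simp
  rw [e]
  have h1 : (1 / (d : ℝ)) ^ d * (d : ℝ) ^ d = 1 := by
    rw [← mul_pow, one_div, inv_mul_cancel₀ hd', one_pow]
  calc μ ω.1 * (1 / (d : ℝ)) ^ d * (1 + ((d : ℝ) ^ d * ∏ i, M i (ω.2 i) / n - 1))
      = μ ω.1 * ((1 / (d : ℝ)) ^ d * (d : ℝ) ^ d) * ∏ i, M i (ω.2 i) / n := by ring
    _ = _ := by rw [h1, mul_one]

lemma Kop_eq (hd : 0 < d) (G : V d → ℝ) (M : V d) :
    Kop μ n G M = ∑ ω : Om d, wt μ ω * ((1 + del n M ω) * G (M + De ω)) := by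
  unfold Kop
  rw [Fintype.sum_prod_type]
  apply Finset.sum_congr rfl
  intro σ _
  rw [Finset.mul_sum]
  apply Finset.sum_congr rfl
  intro c _
  have := wt_del (μ := μ) (n := n) hd M (σ, c)
  rw [← mul_assoc, ← mul_assoc, this]
  rfl

lemma sum_del (hμ : IsDist μ) (hd : 0 < d) (hn : 0 < n) (M : V d) (hM : ∀ i, ∑ a, M i a = n) :
    ∑ ω : Om d, wt μ ω * del n M ω = 0 := by
  have h1 := Kop_const hμ hn M hM 1
  rw [Kop_eq hd] at h1
  have h2 := wt_sum hμ hd
  have h3 : ∑ ω : Om d, wt μ ω * ((1 + del n M ω) * 1) =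
      ∑ ω : Om d, wt μ ω + ∑ ω : Om d, wt μ ω * del n M ω := by
    rw [← Finset.sum_add_distrib]
    apply Finset.sum_congr rfl
    intro ω _
    ring
  rw [h3, h2] at h1
  linarith

/-- Small relative density in the region close to equilibrium. -/
lemma del_bounds (hd : 0 < d) (hn : 0 < n) (M : V d)
    (hM : ∀ i a, |M i a - n / d| ≤ n / (4 * d ^ 2)) (ω : Om d) :
    |del n M ω| ≤ 1 / 2 ∧ (del n M ω) ^ 2 ≤ 4 * d ^ 3 / n ^ 2 * nrm2 (M - eqm d n) := by
  have hd' : (0 : ℝ) < d := by exact_mod_cast hd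
  have hn' : (0 : ℝ) < n := by exact_mod_cast hn
  set x : Fin d → ℝ := fun i => d / n * (M i (ω.2 i) - n / d) with hx
  have e1 : ∀ i, (d : ℝ) * M i (ω.2 i) / n = 1 + x i := by
    intro i
    rw [hx]
    field_simp
    ring
  have hxle : ∀ i, |x i| ≤ 1 / (4 * d) := by
    intro i
    rw [hx]
    simp only
    rw [abs_mul, abs_of_nonneg (by positivity : (0 : ℝ) ≤ d / n)]
    calc (d : ℝ) / n * |M i (ω.2 i) - n / d| ≤ d / n * (n / (4 * d ^ 2)) :=
          mul_le_mul_of_nonneg_left (hM i _) (by positivity)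
      _ = 1 / (4 * d) := by
          field_simp
  have hsum : ∑ i, |x i| ≤ 1 / 4 := by
    calc ∑ i, |x i| ≤ ∑ _i : Fin d, 1 / (4 * (d : ℝ)) := Finset.sum_le_sum fun i _ => hxle i
      _ = 1 / 4 := by
          simp only [Finset.sum_const, Finset.card_univ, Fintype.card_fin, nsmul_eq_mul]
          field_simp
  have hsum0 : 0 ≤ ∑ i, |x i| := Finset.sum_nonneg fun _ _ => abs_nonneg _
  have hdel : |del n M ω| ≤ 2 * ∑ i, |x i| := by
    unfold del
    simp_rw [e1]
    have h1 := Finset.norm_prod_one_add_sub_one_le (Finset.univ : Finset (Fin d)) x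
    simp only [Real.norm_eq_abs] at h1
    have h2 : Real.exp (∑ i, |x i|) - 1 ≤ 2 * ∑ i, |x i| := by
      have h3 := Real.abs_exp_sub_one_le (x := ∑ i, |x i|) (by rw [abs_of_nonneg hsum0]; linarith)
      rw [abs_of_nonneg hsum0] at h3
      exact (le_abs_self _).trans h3
    exact h1.trans h2
  constructor
  · linarith
  · have h1 : (del n M ω) ^ 2 ≤ (2 * ∑ i, |x i|) ^ 2 := by
      rw [← sq_abs]
      exact pow_le_pow_left₀ (abs_nonneg _) hdel 2
    have h2 : (∑ i, |x i|) ^ 2 ≤ d * ∑ i, (x i) ^ 2 := by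
      have := sq_sum_le_card_mul_sum_sq (s := (Finset.univ : Finset (Fin d)))
        (f := fun i => |x i|)
      simpa [sq_abs] using this
    have h3 : ∑ i, (x i) ^ 2 ≤ d ^ 2 / n ^ 2 * nrm2 (M - eqm d n) := by
      unfold nrm2
      rw [Finset.mul_sum]
      apply Finset.sum_le_sum
      intro i _
      have h4 : (M i (ω.2 i) - n / d) ^ 2 ≤ ∑ a, ((M - eqm d n) i a) ^ 2 :=
        Finset.single_le_sum (f := fun a => ((M - eqm d n) i a) ^ 2) (fun _ _ => sq_nonneg _)
          (Finset.mem_univ (ω.2 i))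
      rw [hx]
      simp only
      rw [mul_pow, div_pow]
      exact mul_le_mul_of_nonneg_left h4 (by positivity)
    calc (del n M ω) ^ 2 ≤ (2 * ∑ i, |x i|) ^ 2 := h1
      _ = 4 * (∑ i, |x i|) ^ 2 := by ring
      _ ≤ 4 * (d * (d ^ 2 / n ^ 2 * nrm2 (M - eqm d n))) := by
          have h5 : (0 : ℝ) ≤ d := hd'.le
          nlinarith [mul_le_mul_of_nonneg_left h3 h5]
      _ = _ := by ring

lemma exp_le_one_add {x : ℝ} (hx : |x| ≤ 1 / 2) : Real.exp (x - 2 * x ^ 2) ≤ 1 + x := by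
  rw [abs_le] at hx
  have h1 : 0 < 1 + x := by linarith
  have h2 : x - 2 * x ^ 2 ≤ x / (1 + x) := by
    rw [le_div_iff₀ h1]
    nlinarith [sq_nonneg x, mul_nonneg (sq_nonneg x) (by linarith : (0 : ℝ) ≤ 1 + 2 * x)]
  have h3 : 1 / (1 + x) ≤ Real.exp (-(x / (1 + x))) := by
    have h4 := Real.add_one_le_exp (-(x / (1 + x)))
    have h5 : -(x / (1 + x)) + 1 = 1 / (1 + x) := by
      field_simp
      ring
    rw [h5] at h4
    exact h4
  have h4 : Real.exp (x / (1 + x)) ≤ 1 + x := by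
    rw [Real.exp_neg, one_div] at h3
    exact (inv_le_inv₀ h1 (Real.exp_pos _)).mp h3
  exact (Real.exp_le_exp.mpr h2).trans h4

lemma Rop_nrm2 (hμ : IsDist μ) (hd : 0 < d) (M B : V d) :
    Rop μ (fun X => nrm2 (X - B)) M ≤ nrm2 (M - B) + 4 * d := by
  have hd' : (d : ℝ) ≠ 0 := by exact_mod_cast hd.ne'
  have h0 : ∑ ω : Om d, wt μ ω * ip (M - B) (De ω) = 0 := by
    have h1 := Kop_ip (n := d) hμ hd (fun _ _ => (1 : ℝ)) (fun i => by simp) (M - B)
    have h2 : Am μ d (fun _ _ => (1 : ℝ)) - (fun _ _ => (1 : ℝ)) = 0 := by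
      funext i a
      simp only [Am, Pi.sub_apply, mul_one, U_col hμ, Pi.zero_apply]
      ring
    rw [h2] at h1
    have h3 : ip (M - B) (0 : V d) = 0 := by simp [ip]
    rw [h3] at h1
    rw [Fintype.sum_prod_type]
    rw [← h1]
    apply Finset.sum_congr rfl
    intro σ _
    rw [Finset.mul_sum]
    apply Finset.sum_congr rfl
    intro c _
    unfold wt De
    simp only [Finset.prod_const, Finset.card_univ, Fintype.card_fin]
    ring
  have h1 : Rop μ (fun X => nrm2 (X - B)) M = (∑ ω : Om d, wt μ ω) * nrm2 (M - B) +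
      2 * (∑ ω : Om d, wt μ ω * ip (M - B) (De ω)) + ∑ ω : Om d, wt μ ω * nrm2 (De ω) := by
    unfold Rop
    rw [Finset.sum_mul, Finset.mul_sum, ← Finset.sum_add_distrib, ← Finset.sum_add_distrib]
    apply Finset.sum_congr rfl
    intro ω _
    have e : M + De ω - B = (M - B) + De ω := by abel
    beta_reduce
    rw [e, nrm2_add]
    ring
  rw [h1, wt_sum hμ hd, h0, one_mul, mul_zero, add_zero]
  have h2 : ∑ ω : Om d, wt μ ω * nrm2 (De ω) ≤ 4 * d := by
    calc ∑ ω : Om d, wt μ ω * nrm2 (De ω) ≤ ∑ ω : Om d, wt μ ω * (4 * d) := by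
          apply Finset.sum_le_sum
          intro ω _
          exact mul_le_mul_of_nonneg_left (nrm2_Del _ _) (wt_nonneg hμ ω)
      _ = 4 * d := by rw [← Finset.sum_mul, wt_sum hμ hd, one_mul]
  linarith

lemma De_abs_le (ω : Om d) (i a : Fin d) : |De ω i a| ≤ 1 := by
  unfold De Del
  split_ifs <;> norm_num

lemma De_row (ω : Om d) (i : Fin d) : ∑ a, De ω i a = 0 := by
  unfold De Del
  rw [Finset.sum_add_distrib, Finset.sum_neg_distrib]
  simp

/-- The accumulated error. -/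
noncomputable def BB (d n : ℕ) (j : ℕ) (M : V d) : ℝ :=
  4 * d ^ 3 / n ^ 2 * (j * nrm2 (M - eqm d n) + 4 * d * j ^ 2)

lemma BB_step (hμ : IsDist μ) (hd : 0 < d) (j : ℕ) (M : V d) :
    4 * d ^ 3 / n ^ 2 * nrm2 (M - eqm d n) + Rop μ (BB d n j) M ≤ BB d n (j + 1) M := by
  have h1 : Rop μ (BB d n j) M = 4 * d ^ 3 / n ^ 2 *
      (j * Rop μ (fun X => nrm2 (X - eqm d n)) M + 4 * d * j ^ 2 * ∑ ω : Om d, wt μ ω) := by
    unfold Rop BB
    rw [Finset.mul_sum, Finset.mul_sum, ← Finset.sum_add_distrib, Finset.mul_sum]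
    apply Finset.sum_congr rfl
    intro ω _
    ring
  rw [h1, wt_sum hμ hd]
  unfold BB
  rw [← mul_add]
  apply mul_le_mul_of_nonneg_left _ (by positivity)
  have h2 := Rop_nrm2 hμ hd M (eqm d n)
  have hj : (0 : ℝ) ≤ j := Nat.cast_nonneg j
  have hd' : (0 : ℝ) ≤ d := Nat.cast_nonneg d
  have h3 : (j : ℝ) * Rop μ (fun X => nrm2 (X - eqm d n)) M ≤
      j * (nrm2 (M - eqm d n) + 4 * d) := mul_le_mul_of_nonneg_left h2 hj
  push_cast
  nlinarith [mul_nonneg hd' hj]

/-- Comparison of the chain with the reference walk. -/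
lemma comparison (hμ : IsDist μ) (hd : 0 < d) (hn : 0 < n) {A : ℝ} (hA : 0 < A)
    {g : V d → ℝ} (hg0 : ∀ M, 0 ≤ g M) (hg1 : ∀ M, g M ≤ 1) (j : ℕ) :
    ∀ (M : V d), (∀ i a, |M i a - n / d| ≤ n / (4 * d ^ 2) - j) → (∀ i, ∑ a, M i a = n) →
      ∀ z q : ℝ, 0 ≤ q →
      Real.exp (-A) * ((Rop μ)^[j] g M - 4 / A * (q + BB d n j M) -
        4 / A ^ 2 * (z ^ 2 + BB d n j M)) ≤ Real.exp (z - 2 * q) * (Kop μ n)^[j] g M := by
  induction j with
  | zero =>
    intro M _ _ z q hq
    simp only [Function.iterate_zero, id, BB, Nat.cast_zero, zero_mul, mul_zero, add_zero,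
      ne_eq, OfNat.ofNat_ne_zero, not_false_eq_true, zero_pow]
    have hg := hg0 M
    by_cases hw : 4 / A * q + 4 / A ^ 2 * z ^ 2 < 1
    · have h1 : 0 ≤ 4 / A * q := by positivity
      have h2 : 0 ≤ 4 / A ^ 2 * z ^ 2 := by positivity
      have hq' : q ≤ A / 4 := by
        have h3 : 4 / A * q < 1 := by linarith
        rw [div_mul_eq_mul_div, div_lt_one hA] at h3
        linarith
      have hz' : -(A / 2) ≤ z := by
        have h3 : 4 / A ^ 2 * z ^ 2 < 1 := by linarith
        rw [div_mul_eq_mul_div, div_lt_one (by positivity)] at h3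
        nlinarith
      have h3 : Real.exp (-A) ≤ Real.exp (z - 2 * q) := by
        apply Real.exp_le_exp.mpr
        linarith
      calc Real.exp (-A) * (g M - 4 / A * q - 4 / A ^ 2 * z ^ 2)
          ≤ Real.exp (-A) * g M := by
            apply mul_le_mul_of_nonneg_left _ (Real.exp_pos _).le
            linarith
        _ ≤ _ := mul_le_mul_of_nonneg_right h3 hg
    · push Not at hw
      have h1 : g M - 4 / A * q - 4 / A ^ 2 * z ^ 2 ≤ 0 := by
        have := hg1 M
        linarith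
      calc Real.exp (-A) * (g M - 4 / A * q - 4 / A ^ 2 * z ^ 2) ≤ 0 :=
            mul_nonpos_of_nonneg_of_nonpos (Real.exp_pos _).le h1
        _ ≤ _ := mul_nonneg (Real.exp_pos _).le hg
  | succ j ih =>
    intro M hM hrow z q hq
    rw [Function.iterate_succ_apply', Function.iterate_succ_apply']
    have hMρ : ∀ i a, |M i a - n / d| ≤ n / (4 * d ^ 2) := by
      intro i a
      have := hM i a
      push_cast at this
      have hj : (0 : ℝ) ≤ j := Nat.cast_nonneg j
      linarith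
    have hstep : ∀ ω : Om d,
        Real.exp (-A) * ((Rop μ)^[j] g (M + De ω) -
          4 / A * (q + (del n M ω) ^ 2 + BB d n j (M + De ω)) -
          4 / A ^ 2 * ((z + del n M ω) ^ 2 + BB d n j (M + De ω))) ≤
        Real.exp (z - 2 * q) * ((1 + del n M ω) * (Kop μ n)^[j] g (M + De ω)) := by
      intro ω
      have h1 := ih (M + De ω) (fun i a => by
          have h2 := hM i a
          have h3 := De_abs_le ω i a
          push_cast at h2
          simp only [Pi.add_apply]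
          calc |M i a + De ω i a - n / d| = |(M i a - n / d) + De ω i a| := by ring_nf
            _ ≤ |M i a - n / d| + |De ω i a| := abs_add_le _ _
            _ ≤ _ := by linarith)
        (fun i => by
          simp only [Pi.add_apply, Finset.sum_add_distrib]
          rw [hrow i, De_row, add_zero]) (z + del n M ω) (q + (del n M ω) ^ 2) (by positivity)
      refine h1.trans ?_
      obtain ⟨hb, _⟩ := del_bounds hd hn M hMρ ω
      have h4 := exp_le_one_add hb
      have h5 : Real.exp (z + del n M ω - 2 * (q + (del n M ω) ^ 2)) =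
          Real.exp (z - 2 * q) * Real.exp (del n M ω - 2 * (del n M ω) ^ 2) := by
        rw [← Real.exp_add]
        congr 1
        ring
      rw [h5, mul_assoc]
      apply mul_le_mul_of_nonneg_left _ (Real.exp_pos _).le
      apply mul_le_mul_of_nonneg_right h4
      -- nonnegativity of the iterate: from the induction hypothesis with `g = 0`-type bound
      have hpos : ∀ (j : ℕ) (X : V d), (∀ i a, |X i a - n / d| ≤ n / (4 * d ^ 2) - j) →
          0 ≤ (Kop μ n)^[j] g X := by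
        intro j
        induction j with
        | zero => intro X _; exact hg0 X
        | succ j ihj =>
          intro X hX
          rw [Function.iterate_succ_apply', Kop_eq hd]
          have hXρ : ∀ i a, |X i a - n / d| ≤ n / (4 * d ^ 2) := by
            intro i a
            have := hX i a
            push_cast at this
            have hj : (0 : ℝ) ≤ j := Nat.cast_nonneg j
            linarith
          apply Finset.sum_nonneg
          intro ω' _
          apply mul_nonneg (wt_nonneg hμ ω')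
          have hb' := (del_bounds hd hn X hXρ ω').1
          rw [abs_le] at hb'
          apply mul_nonneg (by linarith)
          apply ihj
          intro i a
          have h2 := hX i a
          have h3 := De_abs_le ω' i a
          push_cast at h2
          simp only [Pi.add_apply]
          calc |X i a + De ω' i a - n / d| = |(X i a - n / d) + De ω' i a| := by ring_nf
            _ ≤ |X i a - n / d| + |De ω' i a| := abs_add_le _ _
            _ ≤ _ := by linarith
      apply hpos j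
      intro i a
      have h2 := hM i a
      have h3 := De_abs_le ω i a
      push_cast at h2
      simp only [Pi.add_apply]
      calc |M i a + De ω i a - n / d| = |(M i a - n / d) + De ω i a| := by ring_nf
        _ ≤ |M i a - n / d| + |De ω i a| := abs_add_le _ _
        _ ≤ _ := by linarith
    have hsum : ∑ ω : Om d, wt μ ω * (Real.exp (-A) * ((Rop μ)^[j] g (M + De ω) -
          4 / A * (q + (del n M ω) ^ 2 + BB d n j (M + De ω)) -
          4 / A ^ 2 * ((z + del n M ω) ^ 2 + BB d n j (M + De ω)))) ≤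
        Real.exp (z - 2 * q) * Kop μ n ((Kop μ n)^[j] g) M := by
      rw [Kop_eq hd, Finset.mul_sum]
      apply Finset.sum_le_sum
      intro ω _
      have := mul_le_mul_of_nonneg_left (hstep ω) (wt_nonneg hμ ω)
      calc _ ≤ _ := this
        _ = _ := by ring
    refine le_trans ?_ hsum
    set W : ℝ := ∑ ω : Om d, wt μ ω * (del n M ω) ^ 2 with hW
    have hWle : W ≤ 4 * d ^ 3 / n ^ 2 * nrm2 (M - eqm d n) := by
      calc W ≤ ∑ ω : Om d, wt μ ω * (4 * d ^ 3 / n ^ 2 * nrm2 (M - eqm d n)) :=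
            Finset.sum_le_sum fun ω _ =>
              mul_le_mul_of_nonneg_left (del_bounds hd hn M hMρ ω).2 (wt_nonneg hμ ω)
        _ = _ := by rw [← Finset.sum_mul, wt_sum hμ hd, one_mul]
    have hexp : ∑ ω : Om d, wt μ ω * (Real.exp (-A) * ((Rop μ)^[j] g (M + De ω) -
          4 / A * (q + (del n M ω) ^ 2 + BB d n j (M + De ω)) -
          4 / A ^ 2 * ((z + del n M ω) ^ 2 + BB d n j (M + De ω)))) =
        Real.exp (-A) * (Rop μ ((Rop μ)^[j] g) M -
          4 / A * (q * (∑ ω : Om d, wt μ ω) + W + Rop μ (BB d n j) M) -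
          4 / A ^ 2 * (z ^ 2 * (∑ ω : Om d, wt μ ω) + 2 * z * (∑ ω : Om d, wt μ ω * del n M ω) +
            W + Rop μ (BB d n j) M)) := by
      rw [hW]
      unfold Rop
      simp only [Finset.mul_sum, ← Finset.sum_add_distrib, ← Finset.sum_sub_distrib]
      apply Finset.sum_congr rfl
      intro ω _
      ring
    rw [hexp, wt_sum hμ hd, sum_del hμ hd hn M hrow]
    apply mul_le_mul_of_nonneg_left _ (Real.exp_pos _).le
    have hB := BB_step (n := n) hμ hd j M
    have hle : W + Rop μ (BB d n j) M ≤ BB d n (j + 1) M := by linarith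
    have h4A : 0 ≤ 4 / A := by positivity
    have h4A2 : 0 ≤ 4 / A ^ 2 := by positivity
    have k1 := mul_le_mul_of_nonneg_left hle h4A
    have k2 := mul_le_mul_of_nonneg_left hle h4A2
    have e1 : 4 / A * (q * 1 + W + Rop μ (BB d n j) M) =
        4 / A * q + 4 / A * (W + Rop μ (BB d n j) M) := by ring
    have e2 : 4 / A ^ 2 * (z ^ 2 * 1 + 2 * z * 0 + W + Rop μ (BB d n j) M) =
        4 / A ^ 2 * z ^ 2 + 4 / A ^ 2 * (W + Rop μ (BB d n j) M) := by ring
    rw [e1, e2]
    have e3 : 4 / A * (q + BB d n (j + 1) M) = 4 / A * q + 4 / A * BB d n (j + 1) M := by ring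
    have e4 : 4 / A ^ 2 * (z ^ 2 + BB d n (j + 1) M) =
        4 / A ^ 2 * z ^ 2 + 4 / A ^ 2 * BB d n (j + 1) M := by ring
    rw [e3, e4]
    linarith

lemma nrm2_add_le (M N : V d) : nrm2 (M + N) ≤ 2 * nrm2 M + 2 * nrm2 N := by
  unfold nrm2
  rw [Finset.mul_sum, Finset.mul_sum, ← Finset.sum_add_distrib]
  apply Finset.sum_le_sum
  intro i _
  rw [Finset.mul_sum, Finset.mul_sum, ← Finset.sum_add_distrib]
  apply Finset.sum_le_sum
  intro a _
  simp only [Pi.add_apply]
  nlinarith [sq_nonneg (M i a - N i a)]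

lemma nrm2_neg (M : V d) : nrm2 (-M) = nrm2 M := by
  unfold nrm2
  simp

lemma nrm2_sub_le (M N : V d) : nrm2 (M - N) ≤ 2 * nrm2 M + 2 * nrm2 N := by
  have := nrm2_add_le M (-N)
  rwa [nrm2_neg, ← sub_eq_add_neg] at this

/-- The length of the final stretch. -/
def JJ (d n : ℕ) : ℕ := n / (8 * d ^ 2)

/-- **Overlap lemma.** Two states within diffusive distance of equilibrium overlap after
`JJ d n` jumps. -/
lemma overlap (hμ : IsDist μ) (hd : 0 < d) (hU : IsIrred (U μ)) (K : ℝ) (hK : 0 < K) :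
    ∃ c : ℝ, 0 < c ∧ ∃ n₀ : ℕ, ∀ n ≥ n₀, ∀ (m m' : State d n),
      nrm2 (emb m - eqm d n) ≤ K * n → nrm2 (emb m' - eqm d n) ≤ K * n →
      ∀ g : State d n → ℝ, (∀ y, 0 ≤ g y) → (∀ y, g y ≤ 1) →
      c ≤ ∑ y, (jump μ n ^ JJ d n) m y * g y + ∑ y, (jump μ n ^ JJ d n) m' y * (1 - g y) := by
  have hd' : (1 : ℝ) ≤ d := by exact_mod_cast hd
  obtain ⟨c₀, hc₀, J₀, hwalk⟩ := walk_overlap hμ hd hU (64 * d ^ 2 * K) (by positivity)
  set Bb : ℝ := 4 * d ^ 3 * (K + 4 * d) with hBb
  have hBb0 : 0 < Bb := by positivity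
  set A : ℝ := max 1 (32 * Bb / c₀) with hA
  have hA1 : 1 ≤ A := le_max_left _ _
  have hA2 : 32 * Bb / c₀ ≤ A := le_max_right _ _
  have hAB : 32 * Bb ≤ A * c₀ := by rwa [div_le_iff₀ hc₀] at hA2
  obtain ⟨n₁, hn₁⟩ := exists_nat_ge (64 * d ^ 4 * K)
  refine ⟨Real.exp (-A) * (c₀ / 2), by positivity, n₁ + 16 * d ^ 2 + 8 * d ^ 2 * J₀ + 1,
    fun n hn m m' hm hm' g hg0 hg1 => ?_⟩
  have hdpos : 0 < d ^ 2 := by positivity
  have hn0 : 0 < n := by omega
  have hn' : (0 : ℝ) < n := by exact_mod_cast hn0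
  set J := JJ d n with hJ
  have hJle : (J : ℝ) ≤ n / (8 * d ^ 2) := by
    rw [hJ]
    unfold JJ
    have := Nat.cast_div_le (m := n) (n := 8 * d ^ 2) (α := ℝ)
    push_cast at this
    exact this
  have hJge : (n : ℝ) / (16 * d ^ 2) ≤ J := by
    have h1 := Nat.div_add_mod n (8 * d ^ 2)
    have h2 := Nat.mod_lt n (show 8 * d ^ 2 > 0 by omega)
    have h3 : n < 8 * d ^ 2 * (n / (8 * d ^ 2) + 1) := by
      rw [mul_add, mul_one]; omega
    have h4 : 1 ≤ n / (8 * d ^ 2) := by
      rw [Nat.le_div_iff_mul_le (by omega)]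
      omega
    have h5 : n ≤ 16 * d ^ 2 * (n / (8 * d ^ 2)) := by
      calc n ≤ 8 * d ^ 2 * (n / (8 * d ^ 2) + 1) := h3.le
        _ ≤ 8 * d ^ 2 * (2 * (n / (8 * d ^ 2))) := Nat.mul_le_mul_left _ (by omega)
        _ = 16 * d ^ 2 * (n / (8 * d ^ 2)) := by ring
    rw [div_le_iff₀ (by positivity)]
    have h6 : (n : ℝ) ≤ 16 * d ^ 2 * (n / (8 * d ^ 2) : ℕ) := by exact_mod_cast h5
    rw [hJ]
    unfold JJ
    linarith
  have hJJ₀ : J₀ ≤ J := by
    rw [hJ]
    unfold JJ
    rw [Nat.le_div_iff_mul_le (by omega)]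
    have : J₀ * (8 * d ^ 2) = 8 * d ^ 2 * J₀ := by ring
    omega
  -- the starting states lie in the region
  have hregion : ∀ x : State d n, nrm2 (emb x - eqm d n) ≤ K * n →
      ∀ i a, |emb x i a - n / d| ≤ n / (4 * d ^ 2) - J := by
    intro x hx i a
    have h1 := entry_sq_le (emb x - eqm d n) i a
    have h2 : (emb x i a - n / d) ^ 2 ≤ K * n := h1.trans hx
    have h3 : K * n ≤ (n / (8 * d ^ 2)) ^ 2 := by
      rw [div_pow, le_div_iff₀ (by positivity)]
      have h4 : 64 * (d : ℝ) ^ 4 * K ≤ n := by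
        have : (n₁ : ℝ) ≤ n := by exact_mod_cast (by omega : n₁ ≤ n)
        linarith
      have h5 : K * n * (8 * (d : ℝ) ^ 2) ^ 2 = 64 * (d : ℝ) ^ 4 * K * n := by ring
      rw [h5]
      nlinarith
    have h4 : |emb x i a - n / d| ≤ n / (8 * d ^ 2) := by
      apply abs_le_of_sq_le_sq _ (by positivity)
      exact h2.trans h3
    have h5 : (n : ℝ) / (4 * d ^ 2) = n / (8 * d ^ 2) + n / (8 * d ^ 2) := by
      field_simp
      ring
    linarith
  -- the error term
  have hBB : ∀ x : State d n, nrm2 (emb x - eqm d n) ≤ K * n → BB d n J (emb x) ≤ Bb := by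
    intro x hx
    unfold BB
    have hJn : (J : ℝ) ≤ n := by
      refine hJle.trans ?_
      rw [div_le_iff₀ (by positivity)]
      have hd2 : (1 : ℝ) ≤ (d : ℝ) ^ 2 := by nlinarith
      nlinarith
    have hJ0 : (0 : ℝ) ≤ J := Nat.cast_nonneg J
    have h1 : (J : ℝ) * nrm2 (emb x - eqm d n) ≤ n * (K * n) :=
      mul_le_mul hJn hx (nrm2_nonneg _) hn'.le
    have h2 : (J : ℝ) ^ 2 ≤ n ^ 2 := pow_le_pow_left₀ hJ0 hJn 2
    have h3 : (J : ℝ) * nrm2 (emb x - eqm d n) + 4 * d * J ^ 2 ≤ n ^ 2 * (K + 4 * d) := by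
      nlinarith
    calc 4 * (d : ℝ) ^ 3 / n ^ 2 * (J * nrm2 (emb x - eqm d n) + 4 * d * J ^ 2)
        ≤ 4 * (d : ℝ) ^ 3 / n ^ 2 * (n ^ 2 * (K + 4 * d)) :=
          mul_le_mul_of_nonneg_left h3 (by positivity)
      _ = Bb := by
          rw [hBb]
          field_simp
  -- extension of `g`
  set G : V d → ℝ := Function.extend emb g 0 with hG
  have hGe : ∀ y : State d n, G (emb y) = g y := fun y => emb_injective.extend_apply g 0 y
  have hG0 : ∀ M, 0 ≤ G M := by
    intro M
    by_cases h : ∃ y : State d n, emb y = M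
    · obtain ⟨y, rfl⟩ := h
      rw [hGe]; exact hg0 y
    · rw [hG, Function.extend_apply' _ _ _ h]
      exact le_rfl
  have hG1 : ∀ M, G M ≤ 1 := by
    intro M
    by_cases h : ∃ y : State d n, emb y = M
    · obtain ⟨y, rfl⟩ := h
      rw [hGe]; exact hg1 y
    · rw [hG, Function.extend_apply' _ _ _ h]
      exact zero_le_one
  have e1 : ∑ y, (jump μ n ^ J) m y * g y = (Kop μ n)^[J] G (emb m) := by
    rw [← jump_pow_apply]
    simp_rw [hGe]
  have e2 : ∑ y, (jump μ n ^ J) m' y * (1 - g y) =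
      (Kop μ n)^[J] (fun X => 1 - G X) (emb m') := by
    rw [← jump_pow_apply]
    simp_rw [hGe]
  rw [e1, e2]
  have c1 := comparison hμ hd hn0 (A := A) (by linarith) hG0 hG1 J (emb m) (hregion m hm)
    (emb_row m) 0 0 le_rfl
  have c2 := comparison hμ hd hn0 (A := A) (by linarith) (g := fun X => 1 - G X)
    (fun X => by have := hG1 X; linarith) (fun X => by have := hG0 X; linarith) J (emb m')
    (hregion m' hm') (emb_row m') 0 0 le_rfl
  simp only [mul_zero, sub_zero, Real.exp_zero, one_mul, ne_eq, OfNat.ofNat_ne_zero,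
    not_false_eq_true, zero_pow, zero_add] at c1 c2
  have hdist : nrm2 (emb m' - emb m) ≤ 64 * d ^ 2 * K * J := by
    have h1 : emb m' - emb m = (emb m' - eqm d n) - (emb m - eqm d n) := by abel
    have h2 := nrm2_sub_le (emb m' - eqm d n) (emb m - eqm d n)
    rw [← h1] at h2
    have h3 : 4 * K * n ≤ 64 * (d : ℝ) ^ 2 * K * J := by
      rw [div_le_iff₀ (by positivity)] at hJge
      have h4 : 4 * K * n ≤ 4 * K * (J * (16 * (d : ℝ) ^ 2)) :=
        mul_le_mul_of_nonneg_left hJge (by positivity)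
      calc 4 * K * n ≤ 4 * K * (J * (16 * (d : ℝ) ^ 2)) := h4
        _ = _ := by ring
    linarith
  have hw := hwalk J hJJ₀ n m m' hdist G (fun X => 1 - G X) 0 1 hG0
    (fun X => by have := hG1 X; linarith) zero_le_one (fun M => by simp) (emb m)
  have e3 : emb m + (emb m' - emb m) + 0 = emb m' := by abel
  rw [e3, mul_one] at hw
  have hb1 := hBB m hm
  have hb2 := hBB m' hm'
  have hA0 : 0 < A := by linarith
  have hk : ∀ x : ℝ, x ≤ Bb → 4 / A * x + 4 / A ^ 2 * x ≤ c₀ / 4 := by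
    intro x hx
    have h1 : 4 / A ^ 2 ≤ 4 / A := by
      apply div_le_div_of_nonneg_left (by norm_num) hA0
      nlinarith
    have h2 : 4 / A * x + 4 / A ^ 2 * x ≤ 4 / A * Bb + 4 / A ^ 2 * Bb := by
      have : 0 ≤ 4 / A + 4 / A ^ 2 := by positivity
      nlinarith
    have h3 : 4 / A * Bb + 4 / A ^ 2 * Bb ≤ 8 / A * Bb := by
      have h4 : 4 / A ^ 2 * Bb ≤ 4 / A * Bb := mul_le_mul_of_nonneg_right h1 hBb0.le
      have h5 : 8 / A * Bb = 4 / A * Bb + 4 / A * Bb := by ring
      linarith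
    have h4 : 8 / A * Bb ≤ c₀ / 4 := by
      rw [div_mul_eq_mul_div, div_le_iff₀ hA0]
      linarith
    linarith
  have k1 := hk _ hb1
  have k2 := hk _ hb2
  have hE := Real.exp_pos (-A)
  have f1 : Real.exp (-A) * ((Rop μ)^[J] G (emb m) - c₀ / 4) ≤ (Kop μ n)^[J] G (emb m) := by
    refine le_trans (mul_le_mul_of_nonneg_left ?_ hE.le) c1
    linarith
  have f2 : Real.exp (-A) * ((Rop μ)^[J] (fun X => 1 - G X) (emb m') - c₀ / 4) ≤
      (Kop μ n)^[J] (fun X => 1 - G X) (emb m') := by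
    refine le_trans (mul_le_mul_of_nonneg_left ?_ hE.le) c2
    linarith
  have f3 : Real.exp (-A) * (c₀ / 2) ≤ Real.exp (-A) * ((Rop μ)^[J] G (emb m) - c₀ / 4) +
      Real.exp (-A) * ((Rop μ)^[J] (fun X => 1 - G X) (emb m') - c₀ / 4) := by
    rw [← mul_add]
    apply mul_le_mul_of_nonneg_left _ hE.le
    linarith
  linarith

end Pool.Agent.MP820675
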