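import Pool.Agent.Lib.MP_820675_pr.Overlap

open Filter Topology Asymptotics Finset

namespace Pool.Agent.MP820675

variable {d n : ℕ} {μ : Equiv.Perm (Fin d) → ℝ}

/-! ### Poisson weights -/

/-- Poisson weights. -/
noncomputable def pw (t : ℝ) (k : ℕ) : ℝ := Real.exp (-t) * t ^ k / (k.factorial : ℝ)

lemma pw_nonneg {t : ℝ} (ht : 0 ≤ t) (k : ℕ) : 0 ≤ pw t k := by
  unfold pw
  positivity

lemma hasSum_pw (t : ℝ) : HasSum (pw t) 1 := by
  have h := (NormedSpace.expSeries_div_hasSum_exp (t : ℝ)).mul_left (Real.exp (-t))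
  rw [← Real.exp_eq_exp_ℝ, ← Real.exp_add, neg_add_cancel, Real.exp_zero] at h
  have e : (fun k : ℕ => Real.exp (-t) * (t ^ k / (k.factorial : ℝ))) = pw t := by
    funext k
    unfold pw
    ring
  rwa [e] at h

lemma pw_succ (t : ℝ) (k : ℕ) : ((k + 1 : ℕ) : ℝ) * pw t (k + 1) = t * pw t k := by
  unfold pw
  rw [Nat.factorial_succ]
  push_cast
  have h1 : (k.factorial : ℝ) ≠ 0 := by exact_mod_cast k.factorial_ne_zero
  have h2 : (k : ℝ) + 1 ≠ 0 := by positivity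
  field_simp
  ring

lemma hasSum_pw1 (t : ℝ) : HasSum (fun k : ℕ => (k : ℝ) * pw t k) t := by
  have h1 : HasSum (fun k : ℕ => ((k + 1 : ℕ) : ℝ) * pw t (k + 1)) (t * 1) := by
    simp_rw [pw_succ]
    exact (hasSum_pw t).mul_left t
  have h2 := (hasSum_nat_add_iff (f := fun k : ℕ => (k : ℝ) * pw t k) 1).mp h1
  simpa using h2

lemma hasSum_pw2 (t : ℝ) : HasSum (fun k : ℕ => ((k : ℝ) * (k - 1)) * pw t k) (t ^ 2) := by
  have h1 : HasSum (fun k : ℕ => (((k + 1 : ℕ) : ℝ) * (((k + 1 : ℕ) : ℝ) - 1)) * pw t (k + 1))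
      (t * t) := by
    have e : ∀ k : ℕ, (((k + 1 : ℕ) : ℝ) * (((k + 1 : ℕ) : ℝ) - 1)) * pw t (k + 1) =
        t * ((k : ℝ) * pw t k) := by
      intro k
      have := pw_succ t k
      calc (((k + 1 : ℕ) : ℝ) * (((k + 1 : ℕ) : ℝ) - 1)) * pw t (k + 1)
          = (((k + 1 : ℕ) : ℝ) - 1) * (((k + 1 : ℕ) : ℝ) * pw t (k + 1)) := by ring
        _ = _ := by rw [this]; push_cast; ring
    simp_rw [e]
    exact (hasSum_pw1 t).mul_left t
  have h2 := (hasSum_nat_add_iff (f := fun k : ℕ => ((k : ℝ) * (k - 1)) * pw t k) 1).mp h1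
  simpa [sq] using h2

lemma hasSum_pw_var (t : ℝ) : HasSum (fun k : ℕ => ((k : ℝ) - t) ^ 2 * pw t k) t := by
  have h := ((hasSum_pw2 t).add ((hasSum_pw1 t).mul_left (1 - 2 * t))).add
    ((hasSum_pw t).mul_left (t ^ 2))
  have e : t ^ 2 + (1 - 2 * t) * t + t ^ 2 * 1 = t := by ring
  rw [e] at h
  have e2 : (fun k : ℕ => ((k : ℝ) - t) ^ 2 * pw t k) =
      fun k : ℕ => ((k : ℝ) * (k - 1)) * pw t k + (1 - 2 * t) * ((k : ℝ) * pw t k) +
        t ^ 2 * pw t k := by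
    funext k
    ring
  rw [e2]
  exact h

lemma summable_pw_mul {t : ℝ} (ht : 0 ≤ t) {f : ℕ → ℝ} {C : ℝ} (hf : ∀ k, |f k| ≤ C) :
    Summable (fun k => pw t k * f k) := by
  refine Summable.of_norm_bounded ((hasSum_pw t).summable.mul_right C) (fun k => ?_)
  rw [norm_mul, Real.norm_eq_abs, Real.norm_eq_abs, abs_of_nonneg (pw_nonneg ht k)]
  exact mul_le_mul_of_nonneg_left (hf k) (pw_nonneg ht k)

/-- Chebyshev for the Poisson law. -/
lemma pw_cheb {t : ℝ} (ht : 0 ≤ t) {f : ℕ → ℝ} (hf0 : ∀ k, 0 ≤ f k) (hf1 : ∀ k, f k ≤ 1)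
    {a : ℝ} (ha : 0 < a) (hf : ∀ k : ℕ, f k ≠ 0 → a ≤ ((k : ℝ) - t) ^ 2) :
    ∑' k, pw t k * f k ≤ t / a := by
  have h1 : ∀ k, pw t k * f k ≤ (((k : ℝ) - t) ^ 2 * pw t k) / a := by
    intro k
    by_cases hk : f k = 0
    · rw [hk, mul_zero]
      have := pw_nonneg ht k
      positivity
    · rw [le_div_iff₀ ha]
      have h2 := hf k hk
      have h3 := pw_nonneg ht k
      have h4 := hf1 k
      have h5 := hf0 k
      calc pw t k * f k * a ≤ pw t k * 1 * ((k : ℝ) - t) ^ 2 := by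
            apply mul_le_mul _ h2 ha.le (by linarith)
            exact mul_le_mul_of_nonneg_left h4 h3
        _ = _ := by ring
  have hs : Summable (fun k => pw t k * f k) :=
    summable_pw_mul ht (C := 1) (fun k => by rw [abs_of_nonneg (hf0 k)]; exact hf1 k)
  have h2 := (hasSum_pw_var t).div_const a
  calc ∑' k, pw t k * f k ≤ ∑' k : ℕ, (((k : ℝ) - t) ^ 2 * pw t k) / a :=
        hs.tsum_le_tsum h1 h2.summable
    _ = t / a := h2.tsum_eq

/-! ### The heat kernel -/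

lemma jpow_le_one (hμ : IsDist μ) (hn : 0 < n) (k : ℕ) (m y : State d n) :
    (jump μ n ^ k) m y ≤ 1 := by
  rw [← jpow_row hμ hn k m]
  exact Finset.single_le_sum (fun z _ => jpow_nonneg hμ k m z) (Finset.mem_univ y)

lemma heat_eq (t : ℝ) (η y : State d n) :
    heat μ n t η y = ∑' k : ℕ, pw t k * (jump μ n ^ k) η y := rfl

lemma heat_sum (hμ : IsDist μ) (hn : 0 < n) {t : ℝ} (ht : 0 ≤ t) (η : State d n)
    (f : State d n → ℝ) :
    ∑ y, heat μ n t η y * f y = ∑' k : ℕ, pw t k * ∑ y, (jump μ n ^ k) η y * f y := by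
  have hs : ∀ y, Summable (fun k => pw t k * (jump μ n ^ k) η y) := fun y =>
    summable_pw_mul ht (C := 1) (fun k => by
      rw [abs_of_nonneg (jpow_nonneg hμ k η y)]
      exact jpow_le_one hμ hn k η y)
  have h1 : ∀ y, heat μ n t η y * f y = ∑' k : ℕ, pw t k * ((jump μ n ^ k) η y * f y) := by
    intro y
    rw [heat_eq, ← tsum_mul_right]
    congr 1
    funext k
    ring
  simp_rw [h1]
  rw [← Summable.tsum_finsetSum]
  · congr 1
    funext k
    rw [Finset.mul_sum]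
  · intro y _
    have := (hs y).mul_right (f y)
    have e : (fun k => pw t k * ((jump μ n ^ k) η y * f y)) =
        fun k => pw t k * (jump μ n ^ k) η y * f y := by
      funext k; ring
    rw [e]
    exact this

lemma heat_nonneg (hμ : IsDist μ) {t : ℝ} (ht : 0 ≤ t) (η y : State d n) :
    0 ≤ heat μ n t η y := by
  rw [heat_eq]
  exact tsum_nonneg fun k => mul_nonneg (pw_nonneg ht k) (jpow_nonneg hμ k η y)

lemma heat_row (hμ : IsDist μ) (hn : 0 < n) {t : ℝ} (ht : 0 ≤ t) (η : State d n) :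
    ∑ y, heat μ n t η y = 1 := by
  have h := heat_sum hμ hn ht η (fun _ => 1)
  simp only [mul_one, jpow_row hμ hn] at h
  rw [h]
  exact (hasSum_pw t).tsum_eq

/-! ### Total variation -/

lemma tv_event {p q : State d n → ℝ} (hp : ∑ y, p y = 1) (hq : ∑ y, q y = 1)
    (f : State d n → ℝ) (hf0 : ∀ y, 0 ≤ f y) (hf1 : ∀ y, f y ≤ 1) :
    ∑ y, q y * f y - (1 / 2) * ∑ y, |p y - q y| ≤ ∑ y, p y * f y := by
  have h1 : ∑ y, (q y - p y) * (f y - 1 / 2) ≤ (1 / 2) * ∑ y, |p y - q y| := by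
    rw [Finset.mul_sum]
    apply Finset.sum_le_sum
    intro y _
    have h2 : |f y - 1 / 2| ≤ 1 / 2 := by
      rw [abs_le]
      constructor
      · linarith [hf0 y]
      · linarith [hf1 y]
    calc (q y - p y) * (f y - 1 / 2) ≤ |(q y - p y) * (f y - 1 / 2)| := le_abs_self _
      _ = |p y - q y| * |f y - 1 / 2| := by rw [abs_mul, abs_sub_comm]
      _ ≤ |p y - q y| * (1 / 2) := mul_le_mul_of_nonneg_left h2 (abs_nonneg _)
      _ = _ := by ring
  have h2 : ∑ y, (q y - p y) * (f y - 1 / 2) = ∑ y, q y * f y - ∑ y, p y * f y := by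
    simp_rw [mul_sub, sub_mul, Finset.sum_sub_distrib, ← Finset.sum_mul, hp, hq]
    ring
  linarith

open Classical in
lemma tv_le_of_overlap {p q : State d n → ℝ} (hp : ∑ y, p y = 1) (hq : ∑ y, q y = 1) {c : ℝ}
    (h : ∀ g : State d n → ℝ, (∀ y, 0 ≤ g y) → (∀ y, g y ≤ 1) →
      c ≤ ∑ y, p y * g y + ∑ y, q y * (1 - g y)) :
    (1 / 2) * ∑ y, |p y - q y| ≤ 1 - c := by
  have h1 := h (fun y => if p y ≤ q y then 1 else 0) (fun y => by split_ifs <;> norm_num)
    (fun y => by split_ifs <;> norm_num)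
  have h2 : ∑ y, p y * (if p y ≤ q y then (1 : ℝ) else 0) +
      ∑ y, q y * (1 - if p y ≤ q y then (1 : ℝ) else 0) =
      ∑ y, ((p y + q y) / 2 - |p y - q y| / 2) := by
    rw [← Finset.sum_add_distrib]
    apply Finset.sum_congr rfl
    intro y _
    split_ifs with hy
    · rw [abs_of_nonpos (by linarith)]
      ring
    · push Not at hy
      rw [abs_of_pos (by linarith)]
      ring
  rw [h2, Finset.sum_sub_distrib, ← Finset.sum_div, ← Finset.sum_div, Finset.sum_add_distrib,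
    hp, hq] at h1
  linarith

/-- Markov's inequality. -/
lemma markov {p : State d n → ℝ} (hp0 : ∀ y, 0 ≤ p y) {F : State d n → ℝ} (hF : ∀ y, 0 ≤ F y)
    {B a : ℝ} (ha : 0 < a) (hB : ∑ y, p y * F y ≤ B) {f : State d n → ℝ}
    (hf : ∀ y, f y ≤ 1) (hfa : ∀ y, F y ≤ a → f y ≤ 0) : ∑ y, p y * f y ≤ B / a := by
  rw [le_div_iff₀ ha]
  refine le_trans ?_ hB
  rw [Finset.sum_mul]
  apply Finset.sum_le_sum
  intro y _
  rw [mul_assoc]
  apply mul_le_mul_of_nonneg_left _ (hp0 y)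
  by_cases h : F y ≤ a
  · have := hfa y h
    have h2 := hF y
    nlinarith
  · push Not at h
    have := hf y
    nlinarith

end Pool.Agent.MP820675
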