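import Pool.Agent.Lib.MP_820675_pr.Moments

open Filter Topology Asymptotics Finset

namespace Pool.Agent.MP820675

variable {d n : ℕ} {μ : Equiv.Perm (Fin d) → ℝ}

/-- The elementary events of one step: the permutation and the picked colours. -/
abbrev Om (d : ℕ) : Type := Equiv.Perm (Fin d) × (Fin d → Fin d)

/-- The weight of an elementary event when the picked colours are uniform. -/
noncomputable def wt (μ : Equiv.Perm (Fin d) → ℝ) (ω : Om d) : ℝ := μ ω.1 * (1 / (d : ℝ)) ^ d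

/-- The increment of an elementary event. -/
def De (ω : Om d) : V d := Del ω.1 ω.2

/-- The operator of the reference walk, with uniform picked colours. -/
noncomputable def Rop (μ : Equiv.Perm (Fin d) → ℝ) (g : V d → ℝ) (M : V d) : ℝ :=
  ∑ ω : Om d, wt μ ω * g (M + De ω)

lemma wt_nonneg (hμ : IsDist μ) (ω : Om d) : 0 ≤ wt μ ω :=
  mul_nonneg (hμ.1 _) (by positivity)

lemma wt_sum (hμ : IsDist μ) (hd : 0 < d) : ∑ ω : Om d, wt μ ω = 1 := by
  have hd' : (d : ℝ) ≠ 0 := by exact_mod_cast hd.ne'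
  unfold wt
  rw [Fintype.sum_prod_type]
  simp only [Finset.sum_const, Finset.card_univ, Fintype.card_pi, Fintype.card_fin,
    Finset.prod_const, nsmul_eq_mul]
  rw [← Finset.mul_sum, ← Finset.sum_mul, hμ.2]
  push_cast
  rw [one_mul, one_div, ← mul_pow, mul_inv_cancel₀ hd', one_pow]

lemma Rop_mono (hμ : IsDist μ) {f g : V d → ℝ} (h : ∀ M, f M ≤ g M) (M : V d) :
    Rop μ f M ≤ Rop μ g M :=
  Finset.sum_le_sum fun ω _ => mul_le_mul_of_nonneg_left (h _) (wt_nonneg hμ ω)

lemma Rop_nonneg (hμ : IsDist μ) {f : V d → ℝ} (h : ∀ M, 0 ≤ f M) (M : V d) :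
    0 ≤ Rop μ f M :=
  Finset.sum_nonneg fun ω _ => mul_nonneg (wt_nonneg hμ ω) (h _)

lemma iter_nonneg (hμ : IsDist μ) {f : V d → ℝ} (h : ∀ M, 0 ≤ f M) (J : ℕ) (M : V d) :
    0 ≤ (Rop μ)^[J] f M := by
  induction J generalizing M with
  | zero => exact h M
  | succ J ih =>
    rw [Function.iterate_succ_apply']
    exact Rop_nonneg hμ ih M

/-- Overlap transfer: the reference walks of length `J` started from `M` and `M + D` overlap with
mass at least `c`, in a form stable under composition. -/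
def Trans (μ : Equiv.Perm (Fin d) → ℝ) (J : ℕ) (D : V d) (c : ℝ) : Prop :=
  ∀ (φ ψ : V d → ℝ) (D' : V d) (H : ℝ), (∀ M, 0 ≤ φ M) → (∀ M, 0 ≤ ψ M) → 0 ≤ H →
    (∀ M, H ≤ φ M + ψ (M + D')) →
    ∀ M, c * H ≤ (Rop μ)^[J] φ M + (Rop μ)^[J] ψ (M + D + D')

lemma trans_zero (hμ : IsDist μ) (hd : 0 < d) (J : ℕ) : Trans μ J 0 1 := by
  intro φ ψ D' H hφ hψ hH h
  have key : ∀ J : ℕ, ∀ M, H ≤ (Rop μ)^[J] φ M + (Rop μ)^[J] ψ (M + D') := by
    intro J
    induction J with
    | zero => exact h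
    | succ J ih =>
      intro M
      rw [Function.iterate_succ_apply', Function.iterate_succ_apply']
      unfold Rop
      rw [← Finset.sum_add_distrib]
      calc H = ∑ ω : Om d, wt μ ω * H := by rw [← Finset.sum_mul, wt_sum hμ hd, one_mul]
        _ ≤ _ := by
          apply Finset.sum_le_sum
          intro ω _
          rw [← mul_add]
          apply mul_le_mul_of_nonneg_left _ (wt_nonneg hμ ω)
          have := ih (M + De ω)
          have e : M + De ω + D' = M + D' + De ω := by abel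
          rw [e] at this
          exact this
  intro M
  rw [one_mul, add_zero]
  exact key J M

lemma trans_comp (hμ : IsDist μ) {J₁ J₂ : ℕ} {D₁ D₂ : V d} {c₁ c₂ : ℝ} (hc₁ : 0 ≤ c₁)
    (h₁ : Trans μ J₁ D₁ c₁) (h₂ : Trans μ J₂ D₂ c₂) :
    Trans μ (J₁ + J₂) (D₁ + D₂) (c₁ * c₂) := by
  intro φ ψ D' H hφ hψ hH h M
  have k1 := h₁ φ ψ D' H hφ hψ hH h
  have k2 := h₂ ((Rop μ)^[J₁] φ) ((Rop μ)^[J₁] ψ) (D₁ + D') (c₁ * H)
    (iter_nonneg hμ hφ J₁) (iter_nonneg hμ hψ J₁) (mul_nonneg hc₁ hH)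
    (fun M => by
      have := k1 M
      rwa [add_assoc] at this) M
  rw [← Function.iterate_add_apply, ← Function.iterate_add_apply, Nat.add_comm J₂ J₁] at k2
  have e : M + D₂ + (D₁ + D') = M + (D₁ + D₂) + D' := by abel
  rw [e] at k2
  calc c₁ * c₂ * H = c₂ * (c₁ * H) := by ring
    _ ≤ _ := k2

lemma trans_mono (hμ : IsDist μ) (hd : 0 < d) {J₁ J : ℕ} (hJ : J₁ ≤ J) {D : V d} {c : ℝ}
    (hc : 0 ≤ c) (h : Trans μ J₁ D c) : Trans μ J D c := by
  have h2 := trans_comp hμ hc h (trans_zero hμ hd (J - J₁))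
  rwa [Nat.add_sub_cancel' hJ, add_zero, mul_one] at h2

lemma trans_weaken {J : ℕ} {D : V d} {c c' : ℝ} (hc : c' ≤ c) (h : Trans μ J D c) :
    Trans μ J D c' := by
  intro φ ψ D' H hφ hψ hH h' M
  exact (mul_le_mul_of_nonneg_right hc hH).trans (h φ ψ D' H hφ hψ hH h' M)

/-! ### The elementary flip -/

section flip

variable (σ₀ : Equiv.Perm (Fin d)) (i₀ a b : Fin d)

/-- The direction of the flip. -/
def dv : V d := fun i x =>
  ((if σ₀ i₀ = i then 1 else 0) - (if i₀ = i then 1 else 0)) *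
    ((if b = x then 1 else 0) - (if a = x then 1 else 0))

open Classical in
/-- Exchange the colours `a` and `b` in the pick from urn `i₀`, if the permutation is `σ₀`. -/
noncomputable def flip (ω : Om d) : Om d :=
  if ω.1 = σ₀ then (ω.1, Function.update ω.2 i₀ (Equiv.swap a b (ω.2 i₀))) else ω

open Classical in
/-- The sign of the flip. -/
noncomputable def sg (ω : Om d) : ℤ :=
  if ω.1 = σ₀ then (if ω.2 i₀ = a then 1 else if ω.2 i₀ = b then -1 else 0) else 0

lemma flip_fst (ω : Om d) : (flip σ₀ i₀ a b ω).1 = ω.1 := by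
  unfold flip
  split_ifs <;> rfl

lemma flip_flip (ω : Om d) : flip σ₀ i₀ a b (flip σ₀ i₀ a b ω) = ω := by
  unfold flip
  by_cases h : ω.1 = σ₀
  · simp only [h, if_true, Function.update_self, Equiv.swap_apply_self, Function.update_idem,
      Function.update_eq_self]
    rw [← h]
  · simp [h]

lemma sg_flip (hab : a ≠ b) (ω : Om d) : sg σ₀ i₀ a b (flip σ₀ i₀ a b ω) = - sg σ₀ i₀ a b ω := by
  unfold sg flip
  by_cases h : ω.1 = σ₀
  · simp only [h, if_true, Function.update_self]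
    by_cases h1 : ω.2 i₀ = a
    · rw [h1, Equiv.swap_apply_left]
      simp [hab.symm]
    · by_cases h2 : ω.2 i₀ = b
      · rw [h2, Equiv.swap_apply_right]
        simp [hab.symm]
      · rw [Equiv.swap_apply_of_ne_of_ne h1 h2]
        simp [h1, h2]
  · simp [h]

lemma De_flip (ω : Om d) :
    De (flip σ₀ i₀ a b ω) = De ω + sg σ₀ i₀ a b ω • dv σ₀ i₀ a b := by
  obtain ⟨σ, c⟩ := ω
  by_cases h : σ = σ₀
  · subst h
    have e1 : flip σ i₀ a b (σ, c) = (σ, Function.update c i₀ (Equiv.swap a b (c i₀))) := by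
      unfold flip; simp
    have e2 : sg σ i₀ a b (σ, c) = (if c i₀ = a then 1 else if c i₀ = b then -1 else 0) := by
      unfold sg; simp
    rw [e1, e2]
    -- a general formula for the update
    have gen : ∀ z : Fin d, De (σ, Function.update c i₀ z) = De (σ, c) +
        fun i x => ((if σ i₀ = i then (1 : ℝ) else 0) - (if i₀ = i then 1 else 0)) *
          ((if z = x then 1 else 0) - (if c i₀ = x then 1 else 0)) := by
      intro z
      funext i x
      simp only [De, Del, Pi.add_apply]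
      have u1 : (if Function.update c i₀ z i = x then (1 : ℝ) else 0) =
          (if c i = x then 1 else 0) + (if i₀ = i then (1 : ℝ) else 0) *
            ((if z = x then 1 else 0) - (if c i₀ = x then 1 else 0)) := by
        by_cases hi : i₀ = i
        · subst hi
          simp
        · rw [Function.update_of_ne (Ne.symm hi)]
          simp [hi]
      have u2 : (if Function.update c i₀ z (σ.symm i) = x then (1 : ℝ) else 0) =
          (if c (σ.symm i) = x then 1 else 0) + (if σ i₀ = i then (1 : ℝ) else 0) *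
            ((if z = x then 1 else 0) - (if c i₀ = x then 1 else 0)) := by
        by_cases hi : σ i₀ = i
        · subst hi
          simp
        · have hi' : σ.symm i ≠ i₀ := by
            intro h
            apply hi
            rw [← h]
            simp
          rw [Function.update_of_ne hi']
          simp [hi]
      rw [u1, u2]
      ring
    rw [gen]
    congr 1
    by_cases h1 : c i₀ = a
    · rw [if_pos h1, h1, Equiv.swap_apply_left]
      funext i x
      simp [dv]
    · rw [if_neg h1]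
      by_cases h2 : c i₀ = b
      · rw [if_pos h2, h2, Equiv.swap_apply_right]
        funext i x
        simp only [dv, Pi.smul_apply, neg_smul, one_smul]
        ring
      · rw [if_neg h2, Equiv.swap_apply_of_ne_of_ne h1 h2]
        funext i x
        simp
  · have e1 : flip σ₀ i₀ a b (σ, c) = (σ, c) := by
      unfold flip; simp [h]
    have e2 : sg σ₀ i₀ a b (σ, c) = 0 := by
      unfold sg; simp [h]
    rw [e1, e2]
    simp

lemma sum_flip (F : Om d → ℝ) :
    ∑ ω, wt μ ω * F (flip σ₀ i₀ a b ω) = ∑ ω, wt μ ω * F ω := by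
  have hinv : Function.Involutive (flip σ₀ i₀ a b) := flip_flip σ₀ i₀ a b
  have h := Equiv.sum_comp (hinv.toPerm) (fun ω => wt μ ω * F ω)
  rw [← h]
  apply Finset.sum_congr rfl
  intro ω _
  have e : (hinv.toPerm) ω = flip σ₀ i₀ a b ω := rfl
  rw [e]
  unfold wt
  rw [flip_fst]

/-- The probability of a positive flip. -/
noncomputable def pp (μ : Equiv.Perm (Fin d) → ℝ) : ℝ :=
  ∑ ω : Om d, wt μ ω * (if sg σ₀ i₀ a b ω = 1 then 1 else 0)

lemma pp_neg (hab : a ≠ b) :
    ∑ ω : Om d, wt μ ω * (if sg σ₀ i₀ a b ω = -1 then 1 else 0) = pp σ₀ i₀ a b μ := by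
  unfold pp
  rw [← sum_flip σ₀ i₀ a b]
  apply Finset.sum_congr rfl
  intro ω _
  rw [sg_flip σ₀ i₀ a b hab]
  congr 1
  simp [neg_inj]

lemma pp_pos (hμ : IsDist μ) (hd : 0 < d) (hσ : 0 < μ σ₀) : 0 < pp σ₀ i₀ a b μ := by
  unfold pp
  apply Finset.sum_pos'
  · intro ω _
    exact mul_nonneg (wt_nonneg hμ ω) (by split_ifs <;> norm_num)
  · refine ⟨(σ₀, fun _ => a), Finset.mem_univ _, ?_⟩
    have hs : sg σ₀ i₀ a b (σ₀, fun _ => a) = 1 := by
      unfold sg; simp
    rw [if_pos hs, mul_one]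
    unfold wt
    have hd' : (0 : ℝ) < d := by exact_mod_cast hd
    positivity

lemma pp_le_one (hμ : IsDist μ) (hd : 0 < d) : pp σ₀ i₀ a b μ ≤ 1 := by
  rw [← wt_sum hμ hd]
  unfold pp
  apply Finset.sum_le_sum
  intro ω _
  have := wt_nonneg hμ ω
  split_ifs <;> simp [this]

/-- The coupling inequality. -/
lemma coupling_step (hμ : IsDist μ) (hd : 0 < d) (hab : a ≠ b) {φ ψ : V d → ℝ} {D' : V d}
    {X : ℤ → ℝ} (h : ∀ (k : ℤ) (M : V d), X k ≤ φ M + ψ (M + k • dv σ₀ i₀ a b + D'))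
    (k : ℤ) (M : V d) :
    X k + (pp σ₀ i₀ a b μ / 2) * (X (k + 1) + X (k - 1) - 2 * X k) ≤
      Rop μ φ M + Rop μ ψ (M + k • dv σ₀ i₀ a b + D') := by
  set v := dv σ₀ i₀ a b with hv
  set M' := M + k • v + D' with hM'
  have h1 : Rop μ ψ M' = ∑ ω, wt μ ω * ψ (M' + De ω + sg σ₀ i₀ a b ω • v) := by
    unfold Rop
    rw [← sum_flip σ₀ i₀ a b]
    apply Finset.sum_congr rfl
    intro ω _
    rw [De_flip σ₀ i₀ a b, ← add_assoc]
  have h2 : Rop μ φ M + Rop μ ψ M' =
      ∑ ω, wt μ ω * ((1 / 2) * ((φ (M + De ω) + ψ (M' + De ω)) +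
        (φ (M + De ω) + ψ (M' + De ω + sg σ₀ i₀ a b ω • v)))) := by
    have h3 : Rop μ ψ M' = (1 / 2) * (∑ ω, wt μ ω * ψ (M' + De ω)) +
        (1 / 2) * ∑ ω, wt μ ω * ψ (M' + De ω + sg σ₀ i₀ a b ω • v) := by
      rw [← h1]
      have : ∑ ω, wt μ ω * ψ (M' + De ω) = Rop μ ψ M' := rfl
      rw [this]
      ring
    rw [h3]
    unfold Rop
    rw [Finset.mul_sum, Finset.mul_sum, ← Finset.sum_add_distrib, ← Finset.sum_add_distrib]
    apply Finset.sum_congr rfl
    intro ω _
    ring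
  rw [h2]
  have h4 : ∑ ω, wt μ ω * ((1 / 2) * (X k + X (k + sg σ₀ i₀ a b ω))) ≤
      ∑ ω, wt μ ω * ((1 / 2) * ((φ (M + De ω) + ψ (M' + De ω)) +
        (φ (M + De ω) + ψ (M' + De ω + sg σ₀ i₀ a b ω • v)))) := by
    apply Finset.sum_le_sum
    intro ω _
    apply mul_le_mul_of_nonneg_left _ (wt_nonneg hμ ω)
    have a1 := h k (M + De ω)
    have a2 := h (k + sg σ₀ i₀ a b ω) (M + De ω)
    have e1 : M + De ω + k • v + D' = M' + De ω := by rw [hM']; abel
    have e2 : M + De ω + (k + sg σ₀ i₀ a b ω) • v + D' = M' + De ω + sg σ₀ i₀ a b ω • v := by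
      rw [hM', add_smul]; abel
    rw [e1] at a1
    rw [e2] at a2
    linarith
  refine le_trans (le_of_eq ?_) h4
  have h5 : ∀ ω : Om d, X (k + sg σ₀ i₀ a b ω) = X k +
      (if sg σ₀ i₀ a b ω = 1 then 1 else 0) * (X (k + 1) - X k) +
      (if sg σ₀ i₀ a b ω = -1 then 1 else 0) * (X (k - 1) - X k) := by
    intro ω
    have : sg σ₀ i₀ a b ω = 1 ∨ sg σ₀ i₀ a b ω = -1 ∨ sg σ₀ i₀ a b ω = 0 := by
      unfold sg
      split_ifs <;> simp
    rcases this with h | h | h
    · rw [h]; simp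
    · rw [h]; simp [sub_eq_add_neg]
    · rw [h]; simp
  have h6 : ∑ ω, wt μ ω * ((1 / 2) * (X k + X (k + sg σ₀ i₀ a b ω))) =
      (∑ ω, wt μ ω) * X k +
      (1 / 2) * ((∑ ω, wt μ ω * (if sg σ₀ i₀ a b ω = 1 then 1 else 0)) * (X (k + 1) - X k) +
        (∑ ω, wt μ ω * (if sg σ₀ i₀ a b ω = -1 then 1 else 0)) * (X (k - 1) - X k)) := by
    rw [Finset.sum_mul, Finset.sum_mul, Finset.sum_mul, ← Finset.sum_add_distrib, Finset.mul_sum,
      ← Finset.sum_add_distrib]
    apply Finset.sum_congr rfl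
    intro ω _
    rw [h5 ω]
    ring
  rw [h6, wt_sum hμ hd, pp_neg σ₀ i₀ a b hab]
  unfold pp
  ring

end flip

/-- The profile function. -/
noncomputable def prof (L : ℝ) (k : ℤ) : ℝ := (max 0 (1 - |(k : ℝ)| / L)) ^ 2

lemma prof_nonneg (L : ℝ) (k : ℤ) : 0 ≤ prof L k := sq_nonneg _

lemma prof_le_one {L : ℝ} (hL : 0 < L) (k : ℤ) : prof L k ≤ 1 := by
  unfold prof
  have h1 : max 0 (1 - |(k : ℝ)| / L) ≤ 1 := by
    apply max_le (by norm_num)
    have : 0 ≤ |(k : ℝ)| / L := by positivity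
    linarith
  have h0 : 0 ≤ max 0 (1 - |(k : ℝ)| / L) := le_max_left _ _
  nlinarith

lemma prof_neg (L : ℝ) (k : ℤ) : prof L (-k) = prof L k := by
  unfold prof
  simp

lemma prof_second_pos {L : ℝ} (hL : 0 < L) {k : ℤ} (hk : 1 ≤ k) (hkL : (k : ℝ) < L) :
    1 / L ^ 2 ≤ prof L (k + 1) + prof L (k - 1) - 2 * prof L k := by
  have hk' : (1 : ℝ) ≤ k := by exact_mod_cast hk
  have e0 : |(k : ℝ)| = k := abs_of_nonneg (by linarith)
  have e1 : |((k + 1 : ℤ) : ℝ)| = k + 1 := by
    push_cast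
    exact abs_of_nonneg (by linarith)
  have e2 : |((k - 1 : ℤ) : ℝ)| = k - 1 := by
    push_cast
    exact abs_of_nonneg (by linarith)
  unfold prof
  rw [e0, e1, e2]
  set u : ℝ := 1 - k / L with hu
  set h : ℝ := 1 / L with hh
  have hh0 : 0 < h := by positivity
  have hu0 : 0 < u := by
    rw [hu, sub_pos, div_lt_one hL]
    exact hkL
  have f1 : 1 - ((k : ℝ) + 1) / L = u - h := by rw [hu, hh]; ring
  have f2 : 1 - ((k : ℝ) - 1) / L = u + h := by rw [hu, hh]; ring
  have f3 : 1 / L ^ 2 = h ^ 2 := by rw [hh]; field_simp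
  rw [f1, f2, f3, max_eq_right hu0.le, max_eq_right (by linarith : 0 ≤ u + h)]
  rcases le_total h u with hc | hc
  · rw [max_eq_right (by linarith : 0 ≤ u - h)]
    nlinarith
  · rw [max_eq_left (by linarith : u - h ≤ 0)]
    nlinarith

lemma prof_second {L : ℝ} (hL : 0 < L) {k : ℤ} (hk : k ≠ 0) (hkL : |(k : ℝ)| < L) :
    1 / L ^ 2 ≤ prof L (k + 1) + prof L (k - 1) - 2 * prof L k := by
  rcases lt_or_gt_of_ne hk with h | h
  · have h1 : 1 ≤ -k := by omega
    have h2 : ((-k : ℤ) : ℝ) < L := by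
      push_cast
      have : -(k : ℝ) ≤ |(k : ℝ)| := neg_le_abs _
      linarith
    have h3 := prof_second_pos hL h1 h2
    have e1 : -k + 1 = -(k - 1) := by ring
    have e2 : -k - 1 = -(k + 1) := by ring
    rw [e1, e2, prof_neg, prof_neg, prof_neg] at h3
    linarith
  · have h1 : 1 ≤ k := by omega
    have h2 : (k : ℝ) < L := lt_of_le_of_lt (le_abs_self _) hkL
    exact prof_second_pos hL h1 h2

lemma prof_zero_of_ge {L : ℝ} (hL : 0 < L) {k : ℤ} (hkL : L ≤ |(k : ℝ)|) : prof L k = 0 := by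
  unfold prof
  rw [max_eq_left]
  · ring
  · rw [sub_nonpos, le_div_iff₀ hL]
    linarith

/-- Elementary overlap. -/
lemma trans_elem (hμ : IsDist μ) (hd : 0 < d) (σ₀ : Equiv.Perm (Fin d)) (i₀ a b : Fin d)
    (hab : a ≠ b) (hσ : 0 < μ σ₀) (J : ℕ) (k : ℤ)
    (hk : 8 * (k : ℝ) ^ 2 ≤ pp σ₀ i₀ a b μ * J) : Trans μ J (k • dv σ₀ i₀ a b) (1 / 4) := by
  set p := pp σ₀ i₀ a b μ with hp
  have hp0 : 0 < p := pp_pos σ₀ i₀ a b hμ hd hσ
  rcases Nat.eq_zero_or_pos J with hJ | hJ
  · subst hJ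
    have hk0 : k = 0 := by
      have : (k : ℝ) ^ 2 ≤ 0 := by
        simp only [Nat.cast_zero, mul_zero] at hk
        linarith
      have h2 : (k : ℝ) = 0 := by nlinarith [sq_nonneg (k : ℝ)]
      exact_mod_cast h2
    subst hk0
    rw [zero_smul]
    exact trans_weaken (by norm_num) (trans_zero hμ hd 0)
  intro φ ψ D' H hφ hψ hH h M
  have hJ' : (0 : ℝ) < J := by exact_mod_cast hJ
  set L : ℝ := Real.sqrt (p * J / 2) with hLdef
  have hL2 : L ^ 2 = p * J / 2 := Real.sq_sqrt (by positivity)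
  have hL : 0 < L := Real.sqrt_pos.mpr (by positivity)
  have key : ∀ j : ℕ, j ≤ J → ∀ (k : ℤ) (M : V d),
      (prof L k - (1 - j / J)) * H ≤
        (Rop μ)^[j] φ M + (Rop μ)^[j] ψ (M + k • dv σ₀ i₀ a b + D') := by
    intro j
    induction j with
    | zero =>
      intro _ k M
      have h1 : (prof L k - (1 - ((0 : ℕ) : ℝ) / J)) * H ≤ 0 := by
        apply mul_nonpos_of_nonpos_of_nonneg _ hH
        simp only [Nat.cast_zero, zero_div]
        have := prof_le_one hL k
        linarith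
      have h2 := hφ M
      have h3 := hψ (M + k • dv σ₀ i₀ a b + D')
      simp only [Function.iterate_zero, id]
      linarith
    | succ j ih =>
      intro hj k M
      have ih' := ih (by omega)
      have hjJ : ((j + 1 : ℕ) : ℝ) / J ≤ 1 := by
        rw [div_le_one hJ']
        exact_mod_cast hj
      by_cases hk0 : k = 0
      · subst hk0
        rw [zero_smul, add_zero]
        have h1 := trans_zero hμ hd (j + 1) φ ψ D' H hφ hψ hH h M
        rw [one_mul, add_zero] at h1
        refine le_trans ?_ h1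
        have h2 := prof_le_one hL 0
        have h3 : prof L 0 - (1 - ((j + 1 : ℕ) : ℝ) / J) ≤ 1 := by linarith
        calc _ ≤ 1 * H := mul_le_mul_of_nonneg_right h3 hH
          _ = H := one_mul H
      · rcases lt_or_ge |(k : ℝ)| L with hkL | hkL
        · rw [Function.iterate_succ_apply', Function.iterate_succ_apply']
          refine le_trans ?_ (coupling_step σ₀ i₀ a b hμ hd hab ih' k M)
          have h1 := prof_second hL hk0 hkL
          have h2 : (p / 2) * (1 / L ^ 2) = 1 / J := by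
            rw [hL2]
            field_simp
          have h3 : (p / 2) * (1 / L ^ 2) ≤
              (p / 2) * (prof L (k + 1) + prof L (k - 1) - 2 * prof L k) :=
            mul_le_mul_of_nonneg_left h1 (by positivity)
          rw [h2] at h3
          have h4 : ((j + 1 : ℕ) : ℝ) / J = j / J + 1 / J := by
            push_cast
            ring
          rw [h4, ← hp]
          nlinarith
        · rw [prof_zero_of_ge hL hkL]
          have h1 : (0 - (1 - ((j + 1 : ℕ) : ℝ) / J)) * H ≤ 0 := by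
            apply mul_nonpos_of_nonpos_of_nonneg _ hH
            linarith
          have h2 := iter_nonneg hμ hφ (j + 1) M
          have h3 := iter_nonneg hμ hψ (j + 1) (M + k • dv σ₀ i₀ a b + D')
          linarith
  have h1 := key J le_rfl k M
  rw [div_self hJ'.ne', sub_self, sub_zero] at h1
  refine le_trans ?_ h1
  apply mul_le_mul_of_nonneg_right _ hH
  unfold prof
  have h2 : |(k : ℝ)| / L ≤ 1 / 2 := by
    rw [div_le_iff₀ hL]
    have h3 : |(k : ℝ)| ^ 2 ≤ (1 / 2 * L) ^ 2 := by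
      rw [sq_abs, mul_pow, hL2]
      linarith
    exact abs_le_of_sq_le_sq' h3 (by positivity) |>.2 |> fun h => by simpa using h
  have h3 : 1 / 2 ≤ max 0 (1 - |(k : ℝ)| / L) := le_max_of_le_right (by linarith)
  nlinarith

end Pool.Agent.MP820675
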